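import Mathlib

/-!
# Visser's inequality for products of cyclotomic type (MP_b5021c_nt, TK_DT; helper95)
-/

namespace Pool.Agent.B5.KO.H95

open Polynomial

/-- The mean of a monomial over the `N`-th roots of unity (times `w`). -/
theorem mean_pow (N : ℕ) (z w : ℂ) (hz : IsPrimitiveRoot z N) (m : ℕ) :
    (∑ k ∈ Finset.range N, (w * z ^ k) ^ m) = if N ∣ m then (N : ℂ) * w ^ m else 0 := by
  have h1 : ∀ k ∈ Finset.range N, (w * z ^ k) ^ m = w ^ m * (z ^ m) ^ k := by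
    intro k _
    rw [mul_pow, ← pow_mul, ← pow_mul, mul_comm k m]
  rw [Finset.sum_congr rfl h1, ← Finset.mul_sum]
  split_ifs with h
  · have h2 : z ^ m = 1 := (hz.pow_eq_one_iff_dvd m).2 h
    rw [h2]
    simp only [one_pow, Finset.sum_const, Finset.card_range, nsmul_eq_mul, mul_one]
    ring
  · have h2 : z ^ m ≠ 1 := fun h3 => h ((hz.pow_eq_one_iff_dvd m).1 h3)
    have h3 : (z ^ m) ^ N = 1 := by rw [← pow_mul, mul_comm, pow_mul, hz.pow_eq_one, one_pow]
    have h4 : (∑ k ∈ Finset.range N, (z ^ m) ^ k) = 0 := by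
      have h5 := geom_sum_eq h2 N
      rw [h5, h3]; simp
    rw [h4, mul_zero]

/-- Visser: a polynomial of degree at most `N` takes on the unit circle a value of modulus at least
`|a_0| + |a_N|`; here in the form needed: `a_0 = 1`, `|a_N| = 1`. -/
theorem visser_pol (P : ℂ[X]) (N : ℕ) (hN : 1 ≤ N) (hd : P.natDegree ≤ N) (h0 : P.coeff 0 = 1)
    (hl : ‖P.coeff N‖ = 1) : ∃ s : ℂ, ‖s‖ = 1 ∧ 2 ≤ ‖P.eval s‖ := by
  have hN0 : (N : ℂ) ≠ 0 := by exact_mod_cast (by omega : N ≠ 0)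
  have hz := Complex.isPrimitiveRoot_exp N (by omega)
  set z : ℂ := Complex.exp (2 * Real.pi * Complex.I / N) with hzd
  have hz1 : ‖z‖ = 1 := hz.norm'_eq_one (by omega)
  -- `w` with `w ^ N * a_N = 1`
  obtain ⟨w, hw⟩ : ∃ w : ℂ, w ^ N = (P.coeff N)⁻¹ := by
    obtain ⟨w, hw⟩ := IsAlgClosed.exists_pow_nat_eq ((P.coeff N)⁻¹) (by omega : 0 < N)
    exact ⟨w, hw⟩
  have hw1 : ‖w‖ = 1 := by
    have h1 : ‖w‖ ^ N = 1 := by rw [← norm_pow, hw, norm_inv, hl, inv_one]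
    exact (pow_eq_one_iff_of_nonneg (norm_nonneg w) (by omega)).1 h1
  have hlN : P.coeff N ≠ 0 := by
    intro h; rw [h, norm_zero] at hl; exact zero_ne_one hl
  -- the mean is two
  have hmean : (∑ k ∈ Finset.range N, P.eval (w * z ^ k)) = (N : ℂ) * 2 := by
    have h1 : ∀ x : ℂ, P.eval x = ∑ m ∈ Finset.range (N + 1), P.coeff m * x ^ m := by
      intro x
      exact Polynomial.eval_eq_sum_range' (by omega) x
    simp only [h1]
    rw [Finset.sum_comm]
    have h2 : ∀ m ∈ Finset.range (N + 1), (∑ k ∈ Finset.range N, P.coeff m * (w * z ^ k) ^ m) =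
        P.coeff m * (if N ∣ m then (N : ℂ) * w ^ m else 0) := by
      intro m _
      rw [← Finset.mul_sum, mean_pow N z w hz m]
    rw [Finset.sum_congr rfl h2, Finset.sum_range_succ, Finset.sum_eq_single 0]
    · simp only [dvd_zero, if_true, pow_zero, mul_one, dvd_refl, h0, hw]
      field_simp
      ring
    · intro m hm hm0
      rw [if_neg, mul_zero]
      intro h
      exact absurd (Nat.le_of_dvd (Nat.pos_of_ne_zero hm0) h) (by
        have := Finset.mem_range.1 hm; omega)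
    · intro h
      exact absurd (Finset.mem_range.2 (by omega)) h
  by_contra hcon
  push Not at hcon
  have h3 : ∀ k ∈ Finset.range N, ‖P.eval (w * z ^ k)‖ < 2 := by
    intro k _
    apply hcon
    rw [norm_mul, norm_pow, hw1, hz1, one_pow, one_mul]
  have h4 : ‖(∑ k ∈ Finset.range N, P.eval (w * z ^ k))‖ < N * 2 := by
    calc ‖(∑ k ∈ Finset.range N, P.eval (w * z ^ k))‖
        ≤ ∑ k ∈ Finset.range N, ‖P.eval (w * z ^ k)‖ := norm_sum_le _ _
      _ < ∑ _k ∈ Finset.range N, (2 : ℝ) := by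
        apply Finset.sum_lt_sum_of_nonempty
        · exact Finset.nonempty_range_iff.2 (by omega)
        · exact h3
      _ = N * 2 := by simp
  rw [hmean, norm_mul, Complex.norm_natCast, Complex.norm_ofNat] at h4
  exact lt_irrefl _ h4

/-- One factor. -/
theorem vis_factor (t s : ℂ) (ht : ‖t‖ = 1) (hs : ‖s‖ = 1) (n : ℤ) :
    ∃ u : ℂ, ‖u‖ = 1 ∧ (0 ≤ n → u = t) ∧ (n < 0 → u = t⁻¹) ∧
      ‖1 - t * s ^ n‖ = ‖1 - u * s ^ n.natAbs‖ := by
  have hs0 : s ≠ 0 := by intro h; rw [h, norm_zero] at hs; exact zero_ne_one hs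
  have ht0 : t ≠ 0 := by intro h; rw [h, norm_zero] at ht; exact zero_ne_one ht
  rcases lt_or_ge n 0 with hn | hn
  · refine ⟨t⁻¹, by rw [norm_inv, ht, inv_one], fun h => absurd h (by omega), fun _ => rfl, ?_⟩
    obtain ⟨m, hm⟩ : ∃ m : ℕ, n = -(m : ℤ) := ⟨n.natAbs, by omega⟩
    subst hm
    have h1 : (-(m : ℤ)).natAbs = m := by omega
    rw [h1, zpow_neg, zpow_natCast]
    have h2 : 1 - t * (s ^ m)⁻¹ = -(t * (s ^ m)⁻¹) * (1 - t⁻¹ * s ^ m) := by
      have hsm : s ^ m ≠ 0 := pow_ne_zero _ hs0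
      field_simp
      ring
    rw [h2, norm_mul, norm_neg, norm_mul, norm_inv, norm_pow, hs, ht, one_pow, inv_one, mul_one,
      one_mul]
  · refine ⟨t, ht, fun _ => rfl, fun h => absurd h (by omega), ?_⟩
    obtain ⟨m, hm⟩ : ∃ m : ℕ, n = (m : ℤ) := ⟨n.natAbs, by omega⟩
    subst hm
    rw [Int.natAbs_natCast, zpow_natCast]

/-- **Visser** for the products of the killers. -/
theorem visser {ι : Type*} (K : Finset ι) (hK : K.Nonempty) (t : ι → ℂ) (nu : ι → ℤ)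
    (ht : ∀ j ∈ K, ‖t j‖ = 1) (hnu : ∀ j ∈ K, nu j ≠ 0) :
    ∃ s : ℂ, ‖s‖ = 1 ∧ 2 ≤ ‖∏ j ∈ K, (1 - t j * s ^ nu j)‖ := by
  classical
  let u : ι → ℂ := fun j => if 0 ≤ nu j then t j else (t j)⁻¹
  have hu : ∀ j ∈ K, ‖u j‖ = 1 := by
    intro j hj
    simp only [u]
    split_ifs
    · exact ht j hj
    · rw [norm_inv, ht j hj, inv_one]
  have hfac : ∀ s : ℂ, ‖s‖ = 1 → ∀ j ∈ K, ‖1 - t j * s ^ nu j‖ = ‖1 - u j * s ^ (nu j).natAbs‖ := by
    intro s hs j hj
    obtain ⟨v, -, hv1, hv2, hv3⟩ := vis_factor (t j) s (ht j hj) hs (nu j)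
    rw [hv3]
    rcases le_or_gt 0 (nu j) with h | h
    · rw [hv1 h]; simp only [u, if_pos h]
    · rw [hv2 h]; simp only [u, if_neg (not_le.2 h)]
  -- the polynomial
  let P : ℂ[X] := ∏ j ∈ K, (1 - C (u j) * X ^ (nu j).natAbs)
  have key : ∀ S : Finset ι, S ⊆ K → (∏ j ∈ S, (1 - C (u j) * X ^ (nu j).natAbs) : ℂ[X]).natDegree ≤
      ∑ j ∈ S, (nu j).natAbs ∧
      (∏ j ∈ S, (1 - C (u j) * X ^ (nu j).natAbs) : ℂ[X]).coeff 0 = 1 ∧
      ‖(∏ j ∈ S, (1 - C (u j) * X ^ (nu j).natAbs) : ℂ[X]).coeff (∑ j ∈ S, (nu j).natAbs)‖ = 1 := by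
    intro S
    induction S using Finset.induction_on with
    | empty => intro _; simp
    | insert a S ha ih =>
      intro hS
      obtain ⟨h1, h2, h3⟩ := ih (fun j hj => hS (Finset.mem_insert_of_mem hj))
      have haK : a ∈ K := hS (Finset.mem_insert_self a S)
      have hna : (nu a).natAbs ≠ 0 := by
        intro h; exact hnu a haK (Int.natAbs_eq_zero.1 h)
      have hd1 : (1 - C (u a) * X ^ (nu a).natAbs : ℂ[X]).natDegree ≤ (nu a).natAbs := by
        refine (natDegree_sub_le _ _).trans (max_le (by simp) ?_)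
        exact natDegree_C_mul_X_pow_le _ _
      rw [Finset.prod_insert ha, Finset.sum_insert ha]
      refine ⟨natDegree_mul_le.trans (add_le_add hd1 h1), ?_, ?_⟩
      · rw [mul_coeff_zero, h2]
        simp [coeff_X_pow, Ne.symm hna]
      · rw [coeff_mul_add_eq_of_natDegree_le hd1 h1]
        rw [norm_mul, h3, mul_one]
        rw [coeff_sub, coeff_one, coeff_C_mul, coeff_X_pow, if_pos rfl, if_neg hna]
        rw [zero_sub, mul_one, norm_neg, hu a haK]
  obtain ⟨k1, k2, k3⟩ := key K (Finset.Subset.refl K)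
  have hN : 1 ≤ ∑ j ∈ K, (nu j).natAbs := by
    obtain ⟨a, ha⟩ := hK
    have h1 : (nu a).natAbs ≤ ∑ j ∈ K, (nu j).natAbs :=
      Finset.single_le_sum (f := fun j => (nu j).natAbs) (fun _ _ => Nat.zero_le _) ha
    have h2 : (nu a).natAbs ≠ 0 := fun h => hnu a ha (Int.natAbs_eq_zero.1 h)
    omega
  obtain ⟨s, hs, h⟩ := visser_pol P _ hN k1 k2 k3
  refine ⟨s, hs, ?_⟩
  rw [norm_prod, Finset.prod_congr rfl (hfac s hs), ← norm_prod]
  have h5 : P.eval s = ∏ j ∈ K, (1 - u j * s ^ (nu j).natAbs) := by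
    simp only [P, eval_prod, eval_sub, eval_one, eval_mul, eval_C, eval_pow, eval_X]
  rw [← h5]
  exact h

/-- The same for a finite type, with `s : Circle`. -/
theorem visser_fin {ι : Type} [Fintype ι] [Nonempty ι] (t : ι → ℂ) (n : ι → ℤ)
    (ht : ∀ j, ‖t j‖ = 1) (hn : ∀ j, n j ≠ 0) :
    ∃ s : Circle, (2 : ℝ) ≤ ‖∏ j, (1 - t j * (s : ℂ) ^ (n j))‖ := by
  obtain ⟨s, hs, h⟩ := visser Finset.univ Finset.univ_nonempty t n (fun j _ => ht j)
    (fun j _ => hn j)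
  exact ⟨⟨s, mem_sphere_zero_iff_norm.2 hs⟩, h⟩

end Pool.Agent.B5.KO.H95
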