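import Pool.Agent.Lib.MP_b5021c_nt.KO.H42.Hul
import Pool.Agent.Lib.MP_b5021c_nt.KO.H95.Vis
import Pool.Agent.Lib.MP_b5021c_nt.S.H31.Qp3
import Pool.Agent.Lib.MP_b5021c_nt.B.H93.Tp3
import Pool.Agent.Lib.MP_b5021c_nt.B.H09.E2Tpm
import Pool.Agent.Lib.MP_b5021c_nt.E.H24.Qm3

/-!
# Board b5, TK_DT: the torus inequality `|del| ≤ |G0|` (helper95)

`A0, A1, B` with `|A1 - (1 + w)² B| ≤ |A0 - (1 + w)² B|` on the torus, for all `|w| = 1`
(a ray which kills the cycle at its load).  Then `|1 + z| |B| ≤ 2 |A0 + z A1|` on the torus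
(`torus_half`), and with `G0 = A0 + z A1`, `del ∏ (1 - t_j) = -(1 + z) B`, and a functional which
kills `G0` and `del` but no `t_j`: `|del| ≤ |G0|` on the torus (`torus_ge`, by Visser).
-/

namespace Pool.Agent.B5.KO.H95

open scoped LaurentPolynomial
open Polynomial

/-! ## At a point -/

theorem half_key {A0 A1 B : ℂ}
    (h : ∀ w : ℂ, ‖w‖ = 1 → ‖A1 - (1 + w) ^ 2 * B‖ ≤ ‖A0 - (1 + w) ^ 2 * B‖) :
    7 / 2 * (B * (starRingEnd ℂ) (A0 - A1)).re + 9 / 2 * (‖B‖ * ‖A0 - A1‖) ≤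
      ‖A0‖ ^ 2 - ‖A1‖ ^ 2 := by
  set X : ℂ := B * (starRingEnd ℂ) (A0 - A1) with hX
  have hXn : ‖X‖ = ‖B‖ * ‖A0 - A1‖ := by
    rw [hX, norm_mul, RCLike.norm_conj]
  rcases eq_or_ne X 0 with h0 | h0
  · have h1 := H42.Hul.hull0 h
    have h2 : ‖A1‖ ^ 2 ≤ ‖A0‖ ^ 2 := by
      have := norm_nonneg A1
      nlinarith
    rw [← hXn, h0, norm_zero, Complex.zero_re]
    linarith
  · have hn : (‖X‖ : ℂ) ≠ 0 := by exact_mod_cast norm_ne_zero_iff.2 h0
    set v : ℂ := (starRingEnd ℂ) X / ‖X‖ with hv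
    have hvn : ‖v‖ = 1 := by
      rw [hv, norm_div, RCLike.norm_conj, Complex.norm_real, norm_norm,
        div_self (norm_ne_zero_iff.2 h0)]
    set t : ℂ := 7 / 4 + 9 / 4 * v with ht
    have htn : ‖t - 7 / 4‖ ≤ 9 / 4 := by
      have h8 : t - 7 / 4 = 9 / 4 * v := by rw [ht]; ring
      rw [h8, norm_mul, hvn]
      norm_num
    have h1 := H42.Hul.hull h htn
    have h2 := H42.Hul.diff A0 A1 B t
    have h3 : ‖A1 - t * B‖ ^ 2 ≤ ‖A0 - t * B‖ ^ 2 := by
      have := norm_nonneg (A1 - t * B)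
      nlinarith
    have h6 : v * X = (‖X‖ : ℂ) := by
      have h5 : (starRingEnd ℂ) X * X = (‖X‖ : ℂ) ^ 2 := by
        rw [mul_comm, Complex.mul_conj, Complex.normSq_eq_norm_sq]; push_cast; ring
      rw [hv, div_mul_eq_mul_div, h5]
      field_simp
    have h4 : 2 * (t * (-(B * (starRingEnd ℂ) (A0 - A1)))) =
        -((7 / 2 : ℝ) : ℂ) * X - ((9 / 2 * ‖X‖ : ℝ) : ℂ) := by
      rw [← hX, ht]
      push_cast
      linear_combination (-(9 / 2 : ℂ)) * h6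
    rw [h4] at h2
    have h7 : (((‖A0‖ ^ 2 - ‖A1‖ ^ 2 : ℝ) : ℂ) + (-((7 / 2 : ℝ) : ℂ) * X -
        ((9 / 2 * ‖X‖ : ℝ) : ℂ))).re = ‖A0‖ ^ 2 - ‖A1‖ ^ 2 - 7 / 2 * X.re - 9 / 2 * ‖X‖ := by
      rw [Complex.add_re, Complex.sub_re, Complex.ofReal_re, Complex.ofReal_re, neg_mul,
        Complex.neg_re, Complex.re_ofReal_mul]
      ring
    rw [h7] at h2
    rw [← hXn]
    linarith

/-- **The pointwise inequality.** -/
theorem half {A0 A1 B z : ℂ} (hz : ‖z‖ = 1)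
    (h : ∀ w : ℂ, ‖w‖ = 1 → ‖A1 - (1 + w) ^ 2 * B‖ ≤ ‖A0 - (1 + w) ^ 2 * B‖) (hne : A0 ≠ A1) :
    9 / 4 * ‖(1 + z) * B‖ ≤ ‖A0 + z * A1 - 7 / 4 * ((1 + z) * B)‖ := by
  have h1 := half_key h
  have hd : 0 < ‖A0 - A1‖ := norm_pos_iff.2 (sub_ne_zero.2 hne)
  rcases eq_or_ne (1 + z) 0 with h0 | h0
  · rw [h0, zero_mul, norm_zero, mul_zero]; positivity
  have hp : 0 < ‖1 + z‖ := norm_pos_iff.2 h0
  have hN : z.re ^ 2 + z.im ^ 2 = 1 := by
    have h2 : ‖z‖ ^ 2 = 1 := by rw [hz]; norm_num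
    rw [← Complex.normSq_eq_norm_sq, Complex.normSq_apply] at h2
    nlinarith
  have h2 : ((A0 + z * A1 - 7 / 4 * ((1 + z) * B)) *
      (starRingEnd ℂ) ((1 + z) * (A0 - A1))).re =
      (1 + z.re) * (‖A0‖ ^ 2 - ‖A1‖ ^ 2 - 7 / 2 * (B * (starRingEnd ℂ) (A0 - A1)).re) := by
    rw [← Complex.normSq_eq_norm_sq, ← Complex.normSq_eq_norm_sq]
    simp only [Complex.normSq_apply, Complex.mul_re, Complex.mul_im, Complex.add_re, Complex.add_im,
      Complex.conj_re, Complex.conj_im, Complex.sub_re, Complex.sub_im, Complex.one_re,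
      Complex.one_im, Complex.div_re, Complex.div_im, Complex.re_ofNat, Complex.im_ofNat]
    norm_num
    linear_combination (A1.re * A0.re + A1.im * A0.im - A1.re ^ 2 - A1.im ^ 2 -
      7 / 4 * (B.re * (A0.re - A1.re) + B.im * (A0.im - A1.im))) * hN
  have h3 : ‖1 + z‖ ^ 2 = 2 * (1 + z.re) := by
    rw [← Complex.normSq_eq_norm_sq]
    simp only [Complex.normSq_apply, Complex.add_re, Complex.add_im, Complex.one_re, Complex.one_im]
    linear_combination hN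
  have h4 : ((A0 + z * A1 - 7 / 4 * ((1 + z) * B)) *
      (starRingEnd ℂ) ((1 + z) * (A0 - A1))).re ≤
      ‖A0 + z * A1 - 7 / 4 * ((1 + z) * B)‖ * (‖1 + z‖ * ‖A0 - A1‖) := by
    refine (Complex.re_le_norm _).trans (le_of_eq ?_)
    rw [norm_mul, RCLike.norm_conj, norm_mul (1 + z)]
  rw [h2] at h4
  have h5 : 0 ≤ 1 + z.re := by nlinarith [sq_nonneg ‖1 + z‖]
  set N : ℝ := ‖A0 + z * A1 - 7 / 4 * ((1 + z) * B)‖ with hNd
  have h6 : 9 / 4 * (‖1 + z‖ ^ 2 * (‖B‖ * ‖A0 - A1‖)) ≤ N * (‖1 + z‖ * ‖A0 - A1‖) := by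
    rw [h3]
    nlinarith [mul_le_mul_of_nonneg_left h1 h5]
  rw [norm_mul]
  have h7 : ‖1 + z‖ * ‖A0 - A1‖ * (9 / 4 * (‖1 + z‖ * ‖B‖)) ≤
      ‖1 + z‖ * ‖A0 - A1‖ * N := by nlinarith [h6]
  exact le_of_mul_le_mul_left h7 (mul_pos hp hd)

/-- The two consequences. -/
theorem pw_of {G P : ℂ} (h : 9 / 4 * ‖P‖ ≤ ‖G + 7 / 4 * P‖) :
    ‖P‖ ≤ 2 * ‖G‖ ∧ (‖P‖ = 2 * ‖G‖ → P = 2 * G) := by
  have h1 : ‖G + 7 / 4 * P‖ ≤ ‖G‖ + 7 / 4 * ‖P‖ := by
    refine (norm_add_le _ _).trans (le_of_eq ?_)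
    rw [norm_mul]; norm_num
  refine ⟨by linarith, fun h2 => ?_⟩
  have h3 : ‖G + 7 / 4 * P‖ ^ 2 ≥ (9 / 4 * ‖P‖) ^ 2 := by
    have := norm_nonneg P
    exact pow_le_pow_left₀ (by positivity) h 2
  have h4 : ‖G + 7 / 4 * P‖ ^ 2 = ‖G‖ ^ 2 + 49 / 16 * ‖P‖ ^ 2 +
      7 / 2 * (G.re * P.re + G.im * P.im) := by
    rw [← Complex.normSq_eq_norm_sq, ← Complex.normSq_eq_norm_sq, ← Complex.normSq_eq_norm_sq]
    simp only [Complex.normSq_apply, Complex.mul_re, Complex.mul_im, Complex.add_re, Complex.add_im,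
      Complex.div_re, Complex.div_im, Complex.re_ofNat, Complex.im_ofNat]
    norm_num
    ring
  have h5 : ‖P - 2 * G‖ ^ 2 = ‖P‖ ^ 2 + 4 * ‖G‖ ^ 2 - 4 * (G.re * P.re + G.im * P.im) := by
    rw [← Complex.normSq_eq_norm_sq, ← Complex.normSq_eq_norm_sq, ← Complex.normSq_eq_norm_sq]
    simp only [Complex.normSq_apply, Complex.mul_re, Complex.mul_im, Complex.sub_re, Complex.sub_im,
      Complex.re_ofNat, Complex.im_ofNat]
    ring
  have h6 : ‖P - 2 * G‖ ^ 2 ≤ 0 := by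
    rw [h4] at h3
    rw [h5]
    rw [h2] at h3 ⊢
    nlinarith
  have h7 : ‖P - 2 * G‖ = 0 := by
    have := sq_nonneg ‖P - 2 * G‖
    exact pow_eq_zero_iff (two_ne_zero) |>.1 (le_antisymm h6 this)
  exact sub_eq_zero.1 (norm_eq_zero.1 h7)

/-! ## On the torus -/

section

variable {O : Type} [CommRing O] [IsDomain O] [IsPrincipalIdealRing O] [Coef O]
  {K : Type} [AddCommGroup K] [Module.Free ℤ K] [Module.Finite ℤ K]

/-- An inequality which holds where `F` does not vanish holds everywhere (for one `z`). -/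
theorem dens_u (hsl : SlEvalS) (F : AO O K) (lam : K →+ ℤ) (hl : Pos lam F) (z : Circle)
    (h0 : evR z (F.coeff 0) ≠ 0) (f g : AddChar K Circle → ℝ)
    (hf : ∀ u : AddChar K Circle, Continuous fun s : Circle => f (twist u lam s))
    (hg : ∀ u : AddChar K Circle, Continuous fun s : Circle => g (twist u lam s))
    (h : ∀ u : AddChar K Circle, ev z u F ≠ 0 → f u ≤ g u) (u : AddChar K Circle) : f u ≤ g u := by
  have hs0 := H24qm.sl_zero hsl u lam z F hl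
  have hne : sl u lam (spec z F) ≠ 0 := by
    intro h1
    rw [h1, eval_zero] at hs0
    exact h0 hs0.symm
  have hev := (hsl K u lam (spec z F) (H31.Qp.nn_spec (H31.Qp.pos_nn hl) z)).1
  have hfin : {s : Circle | (sl u lam (spec z F)).eval (s : ℂ) = 0}.Finite := by
    have h1 : ({s : Circle | (sl u lam (spec z F)).eval (s : ℂ) = 0}) ⊆
        (fun s : Circle => (s : ℂ)) ⁻¹' ((sl u lam (spec z F)).rootSet ℂ) := by
      intro s hs
      rw [Set.mem_preimage, Polynomial.mem_rootSet]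
      refine ⟨hne, ?_⟩
      simpa using hs
    refine Set.Finite.subset (Set.Finite.preimage ?_ (Polynomial.rootSet_finite _ ℂ)) h1
    exact Set.injOn_of_injective Circle.coe_injective
  have hcl : IsClosed {s : Circle | f (twist u lam s) ≤ g (twist u lam s)} :=
    isClosed_le (hf u) (hg u)
  have hsub : {s : Circle | (sl u lam (spec z F)).eval (s : ℂ) = 0}ᶜ ⊆
      {s : Circle | f (twist u lam s) ≤ g (twist u lam s)} := by
    intro s hs
    apply h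
    intro h1
    apply hs
    change (sl u lam (spec z F)).eval (s : ℂ) = 0
    rw [hev s]
    exact h1
  have h4 := hcl.closure_subset_iff.mpr hsub
  rw [(H31.Qp.dense_compl _ hfin).closure_eq] at h4
  have h5 : (1 : Circle) ∈ {s : Circle | f (twist u lam s) ≤ g (twist u lam s)} :=
    h4 (Set.mem_univ 1)
  have h6 : f (twist u lam 1) ≤ g (twist u lam 1) := h5
  rwa [H31.Qp.twist_one] at h6

/-- **The torus inequality**, closed form. -/
theorem torus_half (hE : EvRS) (hZ : ZfinS) (hsl : SlEvalS) {A0 A1 B : AO O K} {c : RO O}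
    (hc : c ≠ 0) {lam : K →+ ℤ} (hl : Pos lam (A0 - A1)) (h0 : (A0 - A1).coeff 0 ≠ 0)
    (hp : ∀ z : Circle, evR z c ≠ 0 → ∀ (u : AddChar K Circle) (w : ℂ), ‖w‖ = 1 →
      ‖ev z u A1 - (1 + w) ^ 2 * ev z u B‖ ≤ ‖ev z u A0 - (1 + w) ^ 2 * ev z u B‖)
    (z : Circle) (u : AddChar K Circle) :
    9 / 4 * ‖(1 + (z : ℂ)) * ev z u B‖ ≤
      ‖ev z u A0 + z * ev z u A1 - 7 / 4 * ((1 + z) * ev z u B)‖ := by
  have hc2 : c * (A0 - A1).coeff 0 ≠ 0 := mul_ne_zero hc h0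
  refine H09.tpm_dense hZ (c * (A0 - A1).coeff 0) hc2
    (fun z => 9 / 4 * ‖(1 + (z : ℂ)) * ev z u B‖ ≤
      ‖ev z u A0 + z * ev z u A1 - 7 / 4 * ((1 + z) * ev z u B)‖) ?_ ?_ z
  · have c1 := H09.tpm_cont_ev hE u A0
    have c2 := H09.tpm_cont_ev hE u A1
    have c3 := H09.tpm_cont_ev hE u B
    have c4 : Continuous fun z : Circle => (z : ℂ) := continuous_subtype_val
    have c5 : Continuous fun z : Circle => (1 + (z : ℂ)) * ev z u B :=
      (continuous_const.add c4).mul c3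
    exact isClosed_le (continuous_const.mul c5.norm)
      (((c1.add (c4.mul c2)).sub (continuous_const.mul c5)).norm)
  · intro z hz
    rw [map_mul] at hz
    have hz1 : evR z c ≠ 0 := left_ne_zero_of_mul hz
    have hz2 : evR z ((A0 - A1).coeff 0) ≠ 0 := right_ne_zero_of_mul hz
    refine dens_u hsl (A0 - A1) lam hl z hz2
      (fun u => 9 / 4 * ‖(1 + (z : ℂ)) * ev z u B‖)
      (fun u => ‖ev z u A0 + z * ev z u A1 - 7 / 4 * ((1 + z) * ev z u B)‖) ?_ ?_ ?_ u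
    · intro u
      exact continuous_const.mul (continuous_const.mul (H93.cont_twist z u lam B)).norm
    · intro u
      exact (((H93.cont_twist z u lam A0).add
        (continuous_const.mul (H93.cont_twist z u lam A1))).sub
        (continuous_const.mul (continuous_const.mul (H93.cont_twist z u lam B)))).norm
    · intro u hu
      refine half (Circle.norm_coe z) (hp z hz1 u) ?_
      rw [map_sub] at hu
      exact sub_ne_zero.1 hu

/-- **The two inputs of the core of TK_DT.** -/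
theorem torus_pw (hE : EvRS) (hZ : ZfinS) (hsl : SlEvalS) {A0 A1 B G P : AO O K} {c : RO O}
    (hc : c ≠ 0) {lam : K →+ ℤ} (hl : Pos lam (A0 - A1)) (h0 : (A0 - A1).coeff 0 ≠ 0)
    (hp : ∀ z : Circle, evR z c ≠ 0 → ∀ (u : AddChar K Circle) (w : ℂ), ‖w‖ = 1 →
      ‖ev z u A1 - (1 + w) ^ 2 * ev z u B‖ ≤ ‖ev z u A0 - (1 + w) ^ 2 * ev z u B‖)
    (hG : ∀ (z : Circle) (u : AddChar K Circle), ev z u G = ev z u A0 + z * ev z u A1)
    (hP : ∀ (z : Circle) (u : AddChar K Circle), ev z u P = -((1 + (z : ℂ)) * ev z u B))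
    (z : Circle) (u : AddChar K Circle) :
    ‖ev z u P‖ ≤ 2 * ‖ev z u G‖ ∧ (‖ev z u P‖ = 2 * ‖ev z u G‖ → ev z u P = 2 * ev z u G) := by
  have h1 := torus_half hE hZ hsl hc hl h0 hp z u
  apply pw_of
  rw [hG z u, hP z u, norm_neg]
  have h2 : ev z u A0 + z * ev z u A1 + 7 / 4 * -((1 + (z : ℂ)) * ev z u B) =
      ev z u A0 + z * ev z u A1 - 7 / 4 * ((1 + z) * ev z u B) := by ring
  rw [h2]
  exact h1

/-- **The torus inequality** `|del| ≤ |G0|`. -/
theorem torus_ge (hE : EvRS) {G0 del : AO O K} {ι : Type} (J : Finset ι) (hJ : J.Nonempty)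
    (t : ι → K) (e : ι → (RO O)ˣ)
    (hd : ∀ (z : Circle) (u : AddChar K Circle),
      ‖ev z u (del * ∏ j ∈ J, sfa (t j) (e j))‖ ≤ 2 * ‖ev z u G0‖)
    (nu : K →+ ℤ) (hnu : ∀ j ∈ J, nu (t j) ≠ 0)
    (hG0 : ∀ a ∈ G0.coeff.support, nu a = 0) (hdel : ∀ a ∈ del.coeff.support, nu a = 0)
    (z : Circle) (u : AddChar K Circle) : ‖ev z u del‖ ≤ ‖ev z u G0‖ := by
  have hinv : ∀ F : AO O K, (∀ a ∈ F.coeff.support, nu a = 0) → ∀ s : Circle,
      ev z (twist u nu s) F = ev z u F := by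
    intro F hF s
    change evC (twist u nu s) (spec z F) = evC u (spec z F)
    rw [evC_apply, evC_apply]
    unfold Finsupp.sum
    refine Finset.sum_congr rfl (fun a ha => ?_)
    have h1 : nu a = 0 := by
      apply hF
      rw [Finsupp.mem_support_iff] at ha ⊢
      intro h2
      apply ha
      rw [spec_coeff, h2, map_zero]
    have h2 : (twist u nu s) a = u a := by
      have h3 : (twist u nu s) a = u a * s ^ (nu a) := rfl
      rw [h3, h1, zpow_zero, mul_one]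
    show (spec z F).coeff a * (((twist u nu s) a : Circle) : ℂ) =
      (spec z F).coeff a * ((u a : Circle) : ℂ)
    rw [h2]
  obtain ⟨s, hs, hv⟩ := visser J hJ (fun j => evR z (((e j)⁻¹ : (RO O)ˣ) : RO O) * (u (t j) : ℂ))
    (fun j => nu (t j)) (fun j _ => by
      rw [norm_mul, (hE O).2.1 z _ (Units.isUnit _), Circle.norm_coe, mul_one]) hnu
  let s' : Circle := ⟨s, mem_sphere_zero_iff_norm.2 hs⟩
  have hs' : (s' : ℂ) = s := rfl
  have h1 := hd z (twist u nu s')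
  rw [map_mul, map_prod, hinv G0 hG0, hinv del hdel, norm_mul] at h1
  have h2 : ∏ j ∈ J, ev z (twist u nu s') (sfa (t j) (e j)) =
      ∏ j ∈ J, (1 - evR z (((e j)⁻¹ : (RO O)ˣ) : RO O) * (u (t j) : ℂ) * s ^ nu (t j)) := by
    refine Finset.prod_congr rfl (fun j _ => ?_)
    rw [H93.ev_sfa]
    have h3 : (((twist u nu s') (t j) : Circle) : ℂ) = (u (t j) : ℂ) * s ^ nu (t j) := by
      have h4 : (twist u nu s') (t j) = u (t j) * s' ^ (nu (t j)) := rfl
      rw [h4, Circle.coe_mul, Circle.coe_zpow, hs']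
    rw [h3]
    ring
  rw [h2] at h1
  nlinarith [norm_nonneg (ev z u del), norm_nonneg (ev z u G0)]

end

end Pool.Agent.B5.KO.H95
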