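import Pool.Agent.Lib.MP_b5021c_nt.KO.H52.Nf3
import Pool.Agent.Lib.MP_b5021c_nt.KO.H21.HurA
import Pool.Agent.Lib.MP_b5021c_nt.E.H02.DtiA
import Pool.Agent.Lib.MP_b5021c_nt.E.H02.DtiD

/-!
# Board b5, TK_DT, (GZ): the part `g0` of the face of a closed triple is stable (helper95)

`Tri phi D r e mu`, `D` stable, constant coefficient without zeros on the circle, `p` a port of
`r 0`: the face without `p` is `g0 - psi (1 - y 1) (1 - y 2)`.  The functional
`lamG = (number of ports) + n (r 1) mu 2 - n (r 2) mu 1` is zero on `r 1`, `r 2` and is the number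
of ports on `g0`, `psi`.  The multi-parameter lemma for `lamG, -mu 2, mu 1` gives
`g0 (s) - psi (s) (1 - x)^2 ≠ 0`, and `x -> 1` (Hurwitz) `g0 (s) ≠ 0`, for `|s| < 1`.
-/

set_option linter.unusedSectionVars false

namespace Pool.Agent.B5.KO.H95

open scoped LaurentPolynomial
open AddMonoidAlgebra
open Pool.Agent.B5.KO.H71 (Tri Fr z3a z3b z3c z3d z3e z3f z3g z3v z3h)
open Pool.Agent.B5.KO52 (psi g0 Im0 psi_in psi_out psi_supp g0_in g0_out g0_supp)

section

variable {L : Type} [AddCommGroup L]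

theorem mev_sub {ι : Type} [Fintype ι] (u : AddChar L Circle) (mu : ι → L →+ ℤ) (t : ι → ℂ)
    (p q : CA L) : mev u mu t (p - q) = mev u mu t p - mev u mu t q := by
  rw [eq_sub_iff_add_eq, ← H83.mev_add, sub_add_cancel]

theorem mev_eq_sl {m1 m2 lam : L →+ ℤ} (u : AddChar L Circle) (s x1 x2 : ℂ) (G : CA L)
    (h1 : ∀ a, G.coeff a ≠ 0 → m1 a = 0) (h2 : ∀ a, G.coeff a ≠ 0 → m2 a = 0) :
    mev u ![lam, m1, m2] ![s, x1, x2] G = (sl u lam G).eval s := by
  let f : CA L →+ ℂ :=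
    { toFun := fun p => mev u ![lam, m1, m2] ![s, x1, x2] p
      map_zero' := H83.mev_zero _ _ _
      map_add' := fun p q => H83.mev_add _ _ _ _ _ }
  let g : CA L →+ ℂ :=
    { toFun := fun p => (sl u lam p).eval s
      map_zero' := by rw [H83.sl_zero, Polynomial.eval_zero]
      map_add' := fun p q => by rw [H83.sl_add, Polynomial.eval_add] }
  refine H83.eq_of_single f g G (fun a ha => ?_)
  change mev u ![lam, m1, m2] ![s, x1, x2] (single a (G.coeff a)) =
    (sl u lam (single a (G.coeff a))).eval s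
  rw [H83.mev_single, H83.sl_single, Polynomial.eval_monomial, Fin.prod_univ_three]
  have e1 : (![lam, m1, m2] : Fin 3 → L →+ ℤ) 1 a = 0 := h1 a ha
  have e2 : (![lam, m1, m2] : Fin 3 → L →+ ℤ) 2 a = 0 := h2 a ha
  rw [e1, e2, Int.toNat_zero, pow_zero, pow_zero, mul_one, mul_one]
  rfl

end

section

variable {O : Type} [CommRing O] [IsDomain O] [IsPrincipalIdealRing O] [Coef O] {P : Type}
  [Fintype P] [DecidableEq P] {L : Type} [AddCommGroup L] [Module.Free ℤ L] [Module.Finite ℤ L]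

/-- The number of ports. -/
def lamS (phi : L →+ (P → ℤ)) : L →+ ℤ := ∑ q, co phi q

theorem lamS_apply (phi : L →+ (P → ℤ)) (a : L) : lamS phi a = ∑ q, phi a q := by
  unfold lamS
  rw [AddMonoidHom.finsetSum_apply]
  rfl

/-- The functional of the face. -/
def lamG (phi : L →+ (P → ℤ)) (r : ZMod 3 → L) (mu : ZMod 3 → L →+ ℤ) : L →+ ℤ where
  toFun a := lamS phi a + lamS phi (r 1) * mu 2 a - lamS phi (r 2) * mu 1 a
  map_zero' := by simp
  map_add' a b := by rw [map_add, map_add, map_add]; ring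

theorem lamG_apply (phi : L →+ (P → ℤ)) (r : ZMod 3 → L) (mu : ZMod 3 → L →+ ℤ) (a : L) :
    lamG phi r mu a = lamS phi a + lamS phi (r 1) * mu 2 a - lamS phi (r 2) * mu 1 a := rfl

theorem lamS_nn {phi : L →+ (P → ℤ)} {a : L} (ha : Bin phi a) : 0 ≤ lamS phi a := by
  rw [lamS_apply]
  refine Finset.sum_nonneg fun q _ => ?_
  rcases ha q with h | h <;> rw [h]
  norm_num

theorem lamS_pos {phi : L →+ (P → ℤ)} (hI : Function.Injective phi) {a : L} (ha : Bin phi a)
    (h0 : a ≠ 0) : 0 < lamS phi a := by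
  rw [lamS_apply]
  obtain ⟨i, hi⟩ : ∃ i, phi a i ≠ 0 := by
    by_contra hcon
    push Not at hcon
    apply h0
    apply hI
    rw [map_zero]
    funext i
    exact hcon i
  have hnn : ∀ q ∈ (Finset.univ : Finset P), 0 ≤ phi a q := by
    intro q _
    rcases ha q with h | h <;> rw [h]
    norm_num
  have hpos : 0 < phi a i := by
    rcases ha i with h | h
    · exact absurd h hi
    · rw [h]; norm_num
  exact lt_of_lt_of_le hpos (Finset.single_le_sum hnn (Finset.mem_univ i))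

variable {phi : L →+ (P → ℤ)} {D : AO O L} {r : ZMod 3 → L} {e : ZMod 3 → (RO O)ˣ}
  {mu : ZMod 3 → L →+ ℤ} {p : P}

theorem lamG_mu {a : L} (ha : ∀ i, mu i a = 0) : lamG phi r mu a = lamS phi a := by
  rw [lamG_apply, ha 1, ha 2]
  ring

theorem lamG_r1 (h : Tri phi D r e mu) : lamG phi r mu (r 1) = 0 := by
  rw [lamG_apply, show mu 2 (r 1) = -1 from h.prv 2, show mu 1 (r 1) = 0 from h.slf 1]
  ring

theorem lamG_r2 (h : Tri phi D r e mu) : lamG phi r mu (r 2) = 0 := by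
  rw [lamG_apply, show mu 2 (r 2) = 0 from h.slf 2, show mu 1 (r 2) = 1 from h.nxt 1]
  ring

theorem psi_bin (hb : ∀ a ∈ supp D, Bin phi a) {a : L} (ha : a ∈ supp (psi phi D r e mu)) :
    Bin phi a := by
  obtain ⟨h1, h2⟩ := psi_supp ha
  intro q
  rcases h1.1 0 q with h3 | h3
  · exact Or.inl h3
  · have h4 := hb _ h2 q
    rw [map_add, Pi.add_apply, h3, add_zero] at h4
    exact h4

theorem g0_bin (hb : ∀ a ∈ supp D, Bin phi a) {a : L} (ha : a ∈ supp (g0 phi D r e mu p)) :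
    Bin phi a := by
  rcases (g0_supp ha).2 with h | h
  · exact hb a h
  · exact psi_bin hb h

theorem pos_g0 (hI : Function.Injective phi) (hb : ∀ a ∈ supp D, Bin phi a) :
    Pos (lamG phi r mu) (g0 phi D r e mu p) := by
  intro a ha h0
  have ha' : a ∈ supp (g0 phi D r e mu p) := Finsupp.mem_support_iff.mp ha
  rw [lamG_mu (g0_supp ha').1.2]
  exact lamS_pos hI (g0_bin hb ha') h0

theorem spec_ne {z : Circle} {G : AO O L} {a : L} (ha : (spec z G).coeff a ≠ 0) : a ∈ supp G := by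
  intro h0
  rw [spec_coeff, h0, map_zero] at ha
  exact ha rfl

/-- The multi-parameter lemma on the face. -/
theorem gz_key (hMu : MultiS) (hSS : StSpecS) (hFa : FaceS) (h : Tri phi D r e mu) (hF1 : F1S)
    (hI : Function.Injective phi) (hb : ∀ a ∈ supp D, Bin phi a) (hst : Stable D)
    (hp : phi (r 0) p = 1) {z : Circle} (hz : evR z (D.coeff 0) ≠ 0) (u : AddChar L Circle)
    {s x1 x2 : ℂ} (hs : ‖s‖ < 1) (hx1 : ‖x1‖ < 1) (hx2 : ‖x2‖ < 1) :
    (sl u (lamG phi r mu) (spec z (g0 phi D r e mu p))).eval s -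
      (sl u (lamG phi r mu) (spec z (psi phi D r e mu))).eval s *
        ((1 - evR z (((e 1)⁻¹ : (RO O)ˣ) : RO O) * ((u (r 1) : Circle) : ℂ) * x1) *
          (1 - evR z (((e 2)⁻¹ : (RO O)ˣ) : RO O) * ((u (r 2) : Circle) : ℂ) * x2)) ≠ 0 := by
  classical
  have hNp : Nn (co phi p) D := by
    intro a ha
    have h1 : co phi p a = phi a p := rfl
    rw [h1]
    rcases hb a (Finsupp.mem_support_iff.mp ha) p with h2 | h2 <;> rw [h2]
    norm_num
  have hstF : Stable (gpart (co phi p) 0 D) := (hFa O L D (co phi p) hst hNp).1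
  have hF0 : (gpart (co phi p) 0 D).coeff 0 = D.coeff 0 := by
    rw [H96.gpart_coeff, if_pos (map_zero _)]
  have hC : StableC (spec z (gpart (co phi p) 0 D)) :=
    (hSS O L _).1 hstF z (by rw [hF0]; exact hz)
  have hface := KO52.face h hF1 hI hb hp
  set G := g0 phi D r e mu p with hG
  set Ps := psi phi D r e mu with hPs
  -- the exponents of the face
  have hexp : ∀ a, (spec z (gpart (co phi p) 0 D)).coeff a ≠ 0 →
      (a ∈ supp G ∨ a ∈ supp Ps) ∨ a - r 1 ∈ supp Ps ∨ a - r 2 ∈ supp Ps ∨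
        a - r 1 - r 2 ∈ supp Ps := by
    intro a ha
    by_contra hcon
    push Not at hcon
    obtain ⟨⟨h1, h2⟩, h3, h4, h5⟩ := hcon
    have k1 : G.coeff a = 0 := by
      by_contra h; exact h1 h
    have k2 : Ps.coeff a = 0 := by
      by_contra h; exact h2 h
    have k3 : Ps.coeff (a - r 1) = 0 := by
      by_contra h; exact h3 h
    have k4 : Ps.coeff (a - r 2) = 0 := by
      by_contra h; exact h4 h
    have k5 : Ps.coeff (a - r 1 - r 2) = 0 := by
      by_contra h; exact h5 h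
    have hx : Ps * ((1 - single (r 1) (((e 1)⁻¹ : (RO O)ˣ) : RO O)) *
        (1 - single (r 2) (((e 2)⁻¹ : (RO O)ˣ) : RO O))) =
        Ps - single (r 1) (((e 1)⁻¹ : (RO O)ˣ) : RO O) * Ps -
          single (r 2) (((e 2)⁻¹ : (RO O)ˣ) : RO O) * Ps +
          single (r 1) (((e 1)⁻¹ : (RO O)ˣ) : RO O) *
            (single (r 2) (((e 2)⁻¹ : (RO O)ˣ) : RO O) * Ps) := by ring
    apply ha
    rw [spec_coeff, hface, hx, coeff_sub, Finsupp.sub_apply, coeff_add, Finsupp.add_apply,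
      coeff_sub, Finsupp.sub_apply, coeff_sub, Finsupp.sub_apply, KO.H40.mon_mul_coeff,
      KO.H40.mon_mul_coeff, KO.H40.mon_mul_coeff, KO.H40.mon_mul_coeff, k1, k2, k3, k4, k5]
    simp
  have hPm : ∀ a ∈ supp Ps, ∀ i, mu i a = 0 := fun a ha => (psi_supp ha).1.2
  have hPl : ∀ a ∈ supp Ps, 0 ≤ lamG phi r mu a := by
    intro a ha
    rw [lamG_mu (hPm a ha)]
    exact lamS_nn (psi_bin hb ha)
  have hGm : ∀ a ∈ supp G, ∀ i, mu i a = 0 := fun a ha => (g0_supp ha).1.2
  have hGl : ∀ a ∈ supp G, 0 ≤ lamG phi r mu a := by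
    intro a ha
    rw [lamG_mu (hGm a ha)]
    exact lamS_nn (g0_bin hb ha)
  -- the three functionals
  have m1r1 : mu 1 (r 1) = 0 := h.slf 1
  have m1r2 : mu 1 (r 2) = 1 := h.nxt 1
  have m2r1 : mu 2 (r 1) = -1 := h.prv 2
  have m2r2 : mu 2 (r 2) = 0 := h.slf 2
  have hval : ∀ a, (spec z (gpart (co phi p) 0 D)).coeff a ≠ 0 →
      0 ≤ lamG phi r mu a ∧ 0 ≤ (-(mu 2)) a ∧ 0 ≤ mu 1 a ∧
        (a ≠ 0 → 0 < lamG phi r mu a + (-(mu 2)) a + mu 1 a) := by
    intro a ha
    rw [AddMonoidHom.neg_apply]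
    rcases hexp a ha with (h1 | h1) | h1 | h1 | h1
    · rw [hGm a h1 1, hGm a h1 2]
      have h2 := hGl a h1
      refine ⟨h2, by norm_num, by norm_num, fun h0 => ?_⟩
      rw [lamG_mu (hGm a h1)]
      have := lamS_pos hI (g0_bin hb h1) h0
      linarith
    · rw [hPm a h1 1, hPm a h1 2]
      have h2 := hPl a h1
      refine ⟨h2, by norm_num, by norm_num, fun h0 => ?_⟩
      rw [lamG_mu (hPm a h1)]
      have := lamS_pos hI (psi_bin hb h1) h0
      linarith
    · have h2 := hPl _ h1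
      have h3 := hPm _ h1 1
      have h4 := hPm _ h1 2
      rw [map_sub, m1r1] at h3
      rw [map_sub, m2r1] at h4
      rw [map_sub, lamG_r1 h] at h2
      refine ⟨by linarith, by linarith, by linarith, fun _ => by linarith⟩
    · have h2 := hPl _ h1
      have h3 := hPm _ h1 1
      have h4 := hPm _ h1 2
      rw [map_sub, m1r2] at h3
      rw [map_sub, m2r2] at h4
      rw [map_sub, lamG_r2 h] at h2
      refine ⟨by linarith, by linarith, by linarith, fun _ => by linarith⟩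
    · have h2 := hPl _ h1
      have h3 := hPm _ h1 1
      have h4 := hPm _ h1 2
      rw [map_sub, map_sub, m1r2, m1r1] at h3
      rw [map_sub, map_sub, m2r2, m2r1] at h4
      rw [map_sub, map_sub, lamG_r2 h, lamG_r1 h] at h2
      refine ⟨by linarith, by linarith, by linarith, fun _ => by linarith⟩
  have hmain := hMu L (spec z (gpart (co phi p) 0 D)) hC (Fin 3)
    ![lamG phi r mu, -(mu 2), mu 1] (by
      intro i a ha
      have h1 := hval a (Finsupp.mem_support_iff.mp ha)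
      fin_cases i
      · exact h1.1
      · exact h1.2.1
      · exact h1.2.2.1) (by
      intro a ha h0
      have h1 := hval a (Finsupp.mem_support_iff.mp ha)
      rw [Fin.sum_univ_three]
      exact h1.2.2.2 h0) u ![s, x1, x2] (by
      intro i
      fin_cases i
      · exact hs
      · exact hx1
      · exact hx2)
  -- evaluate
  have hone : ∀ (a : L) (c : RO O), spec z (1 - single a c : AO O L) = 1 - single a (evR z c) := by
    intro a c
    rw [map_sub, map_one, H83.spec_single]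
  have hN1 : ∀ (a : L) (c : ℂ), (∀ i, 0 ≤ (![lamG phi r mu, -(mu 2), mu 1] : Fin 3 → L →+ ℤ) i a) →
      ∀ i, Nn ((![lamG phi r mu, -(mu 2), mu 1] : Fin 3 → L →+ ℤ) i) (1 - single a c : CA L) := by
    intro a c hn i b hbm
    have h1 := Finsupp.mem_support_iff.mp hbm
    by_cases hba : b = a
    · rw [hba]; exact hn i
    · by_cases hb0 : b = 0
      · rw [hb0, map_zero]
      · exfalso
        apply h1
        rw [coeff_sub, Finsupp.sub_apply, AddMonoidAlgebra.one_def, coeff_single, coeff_single,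
          Finsupp.single_apply, if_neg (fun h => hb0 h.symm), Finsupp.single_apply,
          if_neg (fun h => hba h.symm), sub_zero]
  have hv1 : ∀ (a : L) (c : ℂ), mev u ![lamG phi r mu, -(mu 2), mu 1] ![s, x1, x2]
      (1 - single a c : CA L) = 1 - c * ((u a : Circle) : ℂ) *
        (s ^ (lamG phi r mu a).toNat * x1 ^ ((-(mu 2)) a).toNat * x2 ^ (mu 1 a).toNat) := by
    intro a c
    rw [mev_sub, AddMonoidAlgebra.one_def, H83.mev_single, H83.mev_single, Fin.prod_univ_three,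
      Fin.prod_univ_three]
    simp
  have hnr1 : ∀ i, 0 ≤ (![lamG phi r mu, -(mu 2), mu 1] : Fin 3 → L →+ ℤ) i (r 1) := by
    intro i
    fin_cases i
    · exact (lamG_r1 h).ge
    · change 0 ≤ (-(mu 2)) (r 1)
      rw [AddMonoidHom.neg_apply, m2r1]; norm_num
    · exact m1r1.ge
  have hnr2 : ∀ i, 0 ≤ (![lamG phi r mu, -(mu 2), mu 1] : Fin 3 → L →+ ℤ) i (r 2) := by
    intro i
    fin_cases i
    · exact (lamG_r2 h).ge
    · change 0 ≤ (-(mu 2)) (r 2)
      rw [AddMonoidHom.neg_apply, m2r2]; norm_num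
    · change 0 ≤ mu 1 (r 2)
      rw [m1r2]; norm_num
  have hnP : ∀ i, Nn ((![lamG phi r mu, -(mu 2), mu 1] : Fin 3 → L →+ ℤ) i) (spec z Ps) := by
    intro i a ha
    have h1 := spec_ne (Finsupp.mem_support_iff.mp ha)
    fin_cases i
    · exact hPl a h1
    · change 0 ≤ (-(mu 2)) a
      rw [AddMonoidHom.neg_apply, hPm a h1 2]; norm_num
    · exact (hPm a h1 1).ge
  rw [hface, map_sub, map_mul, map_mul, hone, hone, mev_sub, H02.mev_mul _ _ _ _ _ hnP
    (H02.nn_mul_all _ _ _ (hN1 _ _ hnr1) (hN1 _ _ hnr2)), H02.mev_mul _ _ _ _ _ (hN1 _ _ hnr1)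
    (hN1 _ _ hnr2), hv1, hv1, AddMonoidHom.neg_apply, AddMonoidHom.neg_apply, lamG_r1 h, lamG_r2 h,
    m1r1, m1r2, m2r1, m2r2, mev_eq_sl, mev_eq_sl] at hmain
  · intro hcon
    apply hmain
    rw [← hcon]
    norm_num
  · intro a ha
    rw [AddMonoidHom.neg_apply, hPm a (spec_ne ha) 2, neg_zero]
  · intro a ha
    exact hPm a (spec_ne ha) 1
  · intro a ha
    rw [AddMonoidHom.neg_apply, hGm a (spec_ne ha) 2, neg_zero]
  · intro a ha
    exact hGm a (spec_ne ha) 1

/-- **(GZ).**  The slices of `g0` have no zeros in the open disc. -/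
theorem gz0 (hMu : MultiS) (hSS : StSpecS) (hFa : FaceS) (hEv : EvRS) (h : Tri phi D r e mu)
    (hF1 : F1S) (hI : Function.Injective phi) (hb : ∀ a ∈ supp D, Bin phi a) (hst : Stable D)
    (hp : phi (r 0) p = 1) {z : Circle} (hz : evR z (D.coeff 0) ≠ 0)
    (hG0 : evR z ((g0 phi D r e mu p).coeff 0) ≠ 0) (u : AddChar L Circle) {s : ℂ} (hs : ‖s‖ < 1) :
    (sl u (lamG phi r mu) (spec z (g0 phi D r e mu p))).eval s ≠ 0 := by
  intro hcon
  set G := g0 phi D r e mu p with hG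
  set Ps := psi phi D r e mu with hPs
  have hy : ∀ i, ‖evR z (((e i)⁻¹ : (RO O)ˣ) : RO O) * ((u (r i) : Circle) : ℂ)‖ = 1 := by
    intro i
    rw [norm_mul, Circle.norm_coe, mul_one, (hEv O).2.1 z _ ((e i)⁻¹).isUnit]
  have hy0 : ∀ i, evR z (((e i)⁻¹ : (RO O)ˣ) : RO O) * ((u (r i) : Circle) : ℂ) ≠ 0 := by
    intro i h0
    have h1 := hy i
    rw [h0, norm_zero] at h1
    exact zero_ne_one h1
  have h0 := KO21.hurw_all
    (F := fun x τ => (sl u (lamG phi r mu) (spec z G)).eval τ -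
      (sl u (lamG phi r mu) (spec z Ps)).eval τ * ((1 - (x : ℂ)) * (1 - (x : ℂ))))
    (τ0 := s) (r := 1 - ‖s‖) ?_ ?_ (by linarith) ?_ ?_ 0
  · apply hG0
    have h1 : ((1 - ((1 : ℝ) : ℂ)) * (1 - ((1 : ℝ) : ℂ))) = 0 := by norm_num
    have h2 : (sl u (lamG phi r mu) (spec z G)).eval 0 = 0 := by
      simpa using h0
    rw [H02.sl_eval_zero _ _ _ _ (pos_g0 hI hb)] at h2
    exact h2
  · refine Continuous.sub ?_ (Continuous.mul ?_ ?_)
    · exact (Polynomial.continuous _).comp continuous_snd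
    · exact (Polynomial.continuous _).comp continuous_snd
    · exact ((continuous_const.sub (Complex.continuous_ofReal.comp continuous_fst)).mul
        (continuous_const.sub (Complex.continuous_ofReal.comp continuous_fst)))
  · intro x
    exact (Polynomial.differentiable _).sub ((Polynomial.differentiable _).mul_const _)
  · intro x hx0 hx1 τ hτ
    have hτ1 : ‖τ‖ < 1 := by
      have h1 : ‖τ‖ ≤ ‖τ - s‖ + ‖s‖ := by
        calc ‖τ‖ = ‖(τ - s) + s‖ := by rw [sub_add_cancel]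
          _ ≤ _ := norm_add_le _ _
      linarith
    have hxn : ‖(x : ℂ)‖ < 1 := by
      rw [Complex.norm_real, Real.norm_of_nonneg hx0.le]
      exact hx1
    have hk := gz_key hMu hSS hFa h hF1 hI hb hst hp hz u hτ1
      (x1 := (evR z (((e 1)⁻¹ : (RO O)ˣ) : RO O) * ((u (r 1) : Circle) : ℂ))⁻¹ * x)
      (x2 := (evR z (((e 2)⁻¹ : (RO O)ˣ) : RO O) * ((u (r 2) : Circle) : ℂ))⁻¹ * x)
      (by rw [norm_mul, norm_inv, hy 1, inv_one, one_mul]; exact hxn)
      (by rw [norm_mul, norm_inv, hy 2, inv_one, one_mul]; exact hxn)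
    rw [← mul_assoc (evR z (((e 1)⁻¹ : (RO O)ˣ) : RO O) * ((u (r 1) : Circle) : ℂ)),
      ← mul_assoc (evR z (((e 2)⁻¹ : (RO O)ˣ) : RO O) * ((u (r 2) : Circle) : ℂ)),
      mul_inv_cancel₀ (hy0 1), mul_inv_cancel₀ (hy0 2), one_mul] at hk
    exact hk
  · change (sl u (lamG phi r mu) (spec z G)).eval s -
      (sl u (lamG phi r mu) (spec z Ps)).eval s * ((1 - ((1 : ℝ) : ℂ)) * (1 - ((1 : ℝ) : ℂ))) = 0
    rw [hcon]
    norm_num

/-- `g0` is stable. -/
theorem g0_stable (hMu : MultiS) (hSS : StSpecS) (hFa : FaceS) (hEv : EvRS) (h : Tri phi D r e mu)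
    (hF1 : F1S) (hI : Function.Injective phi) (hb : ∀ a ∈ supp D, Bin phi a) (hst : Stable D)
    (hp : phi (r 0) p = 1) (hz : ∀ z : Circle, evR z (D.coeff 0) ≠ 0)
    (hG0 : (g0 phi D r e mu p).coeff 0 ≠ 0) : Stable (g0 phi D r e mu p) :=
  ⟨hG0, lamG phi r mu, pos_g0 hI hb, fun z hz0 u s hs =>
    gz0 hMu hSS hFa hEv h hF1 hI hb hst hp (hz z) hz0 u hs⟩

/-- **(GZ)** for every functional positive on `g0`. -/
theorem gz (hMu : MultiS) (hSS : StSpecS) (hFa : FaceS) (hEv : EvRS) (h : Tri phi D r e mu)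
    (hF1 : F1S) (hI : Function.Injective phi) (hb : ∀ a ∈ supp D, Bin phi a) (hst : Stable D)
    (hp : phi (r 0) p = 1) (hz : ∀ z : Circle, evR z (D.coeff 0) ≠ 0)
    (hG0 : (g0 phi D r e mu p).coeff 0 ≠ 0) {lam : L →+ ℤ} (hl : Pos lam (g0 phi D r e mu p)) :
    ∀ z : Circle, evR z ((g0 phi D r e mu p).coeff 0) ≠ 0 → ∀ (u : AddChar L Circle) (s : ℂ),
      ‖s‖ < 1 → (sl u lam (spec z (g0 phi D r e mu p))).eval s ≠ 0 :=
  fun z hz0 u s hs => (hSS O L _).2.2 (g0_stable hMu hSS hFa hEv h hF1 hI hb hst hp hz hG0) lam hl z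
    hz0 u s hs

end

end Pool.Agent.B5.KO.H95
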