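import Pool.Agent.Lib.MP_b5021c_nt.KO.H95.V1a

/-!
# MP_b5021c_nt, all `θ`, K ODD, (O4), cycles of length at least five: row V1 of IfaceOC.lean, the
real inequalities for binomials (helper95)

`p = j + t z^k`, `g1 = 1 + r1 z^k1`, `g3 = 1 + r3 z^k3`.
-/

namespace Pool.Agent.B5.KO.H95

open Polynomial

/-- `w ≥ 1 - x²`, `r1 = -1`, the same exponent. -/
theorem bin_a1 {x J t r3 w Xk : ℝ} (hx0 : 0 < x) (hx3 : x ≤ 1 / 3) (hJ : J * x = 1 - x)
    (hX0 : 0 < Xk) (hX1 : Xk ≤ x) (ht : -J ≤ t) (hr3 : -1 ≤ r3) (hw : 1 - x ^ 2 ≤ w)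
    (hA : x * (1 + x) * (w * (J + t * Xk) + (1 + r3 * Xk)) < 1 - Xk) : False := by
  have hJ0 : 0 < J := by
    by_contra hcon
    push Not at hcon
    nlinarith
  have h1 : J * (1 - Xk) ≤ J + t * Xk := by nlinarith
  have h2 : 0 ≤ J * (1 - Xk) := mul_nonneg hJ0.le (by linarith)
  have h3 : (1 - x ^ 2) * (J * (1 - Xk)) ≤ w * (J + t * Xk) :=
    mul_le_mul hw h1 h2 (by nlinarith)
  have h4 : 1 - Xk ≤ 1 + r3 * Xk := by nlinarith
  have h5 : x * (1 + x) * ((1 - x ^ 2) * (J * (1 - Xk)) + (1 - Xk)) < 1 - Xk := by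
    refine lt_of_le_of_lt ?_ hA
    apply mul_le_mul_of_nonneg_left (by linarith) (by positivity)
  have h6 : x * (1 + x) * ((1 - x ^ 2) * (J * (1 - Xk)) + (1 - Xk)) =
      (1 - Xk) * (1 + x) * ((1 - x ^ 2) * (J * x) + x) := by ring
  rw [h6, hJ] at h5
  have h7 : 0 ≤ (1 - Xk) * (x * (1 - x + x ^ 3)) := by
    apply mul_nonneg (by linarith)
    apply mul_nonneg hx0.le
    have : 0 < x ^ 3 := by positivity
    linarith
  nlinarith

/-- `w ≥ 1 - x²`, `g1(x) ≤ 1`, `t = 0`. -/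
theorem bin_a2 {x J r3 w X1 X3 : ℝ} (hx0 : 0 < x) (hx3 : x ≤ 1 / 3) (hJ : J * x = 1 - x)
    (hX1 : 0 < X1) (hX30 : 0 < X3) (hX3 : X3 ≤ x) (hr3 : -1 ≤ r3) (hw : 1 - x ^ 2 ≤ w)
    (hA : x * (1 + x) * (w * J + (1 + r3 * X3)) < 1 - X1) : False := by
  have hJ0 : 0 < J := by
    by_contra hcon
    push Not at hcon
    nlinarith
  have h1 : (1 - x ^ 2) * J ≤ w * J := mul_le_mul_of_nonneg_right hw hJ0.le
  have h4 : 1 - x ≤ 1 + r3 * X3 := by nlinarith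
  have h5 : x * (1 + x) * ((1 - x ^ 2) * J + (1 - x)) < 1 - X1 := by
    refine lt_of_le_of_lt ?_ hA
    apply mul_le_mul_of_nonneg_left (by linarith) (by positivity)
  have h6 : x * (1 + x) * ((1 - x ^ 2) * J + (1 - x)) =
      (1 + x) * ((1 - x ^ 2) * (J * x) + x * (1 - x)) := by ring
  rw [h6, hJ] at h5
  have h7 : 0 ≤ x * (1 - 2 * x - x ^ 2 + x ^ 3) := by
    apply mul_nonneg hx0.le
    have : 0 < x ^ 3 := by positivity
    nlinarith
  nlinarith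

/-- `w ≥ 1`, `r1 = 1`, the same exponent `≥ 2`. -/
theorem bin_b1 {x J t r3 w Xk : ℝ} (hx0 : 0 < x) (hx3 : x ≤ 1 / 3) (hJ : J * x = 1 - x)
    (hX0 : 0 < Xk) (hX1 : Xk ≤ x ^ 2) (ht : 2 - J ≤ t) (hr3 : -1 ≤ r3) (hw : 1 ≤ w)
    (hA : x * (1 + x) * (w * (J + t * Xk) + (1 + r3 * Xk)) < 1 + Xk) : False := by
  have hJ0 : 0 < J := by
    by_contra hcon
    push Not at hcon
    nlinarith
  have hX1' : Xk ≤ 1 := by nlinarith
  have h1 : J * (1 - Xk) ≤ J + t * Xk := by nlinarith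
  have h2 : 0 ≤ J * (1 - Xk) := mul_nonneg hJ0.le (by linarith)
  have h3 : J + t * Xk ≤ w * (J + t * Xk) := le_mul_of_one_le_left (by linarith) hw
  have h4 : (J + 1) + (1 - J) * Xk ≤ (J + t * Xk) + (1 + r3 * Xk) := by nlinarith
  have h5 : x * (1 + x) * ((J + 1) + (1 - J) * Xk) < 1 + Xk := by
    refine lt_of_le_of_lt ?_ hA
    apply mul_le_mul_of_nonneg_left (by linarith) (by positivity)
  have h6 : x * (1 + x) * ((J + 1) + (1 - J) * Xk) =
      (1 + x) * ((J * x + x) + (x - J * x) * Xk) := by ring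
  rw [h6, hJ] at h5
  have h7 : 0 < x - 2 * Xk := by nlinarith
  have h8 : 0 ≤ x * Xk + 2 * x ^ 2 * Xk := by positivity
  nlinarith

/-- `w ≥ 1`, `r1 = 1`, `t = 0`. -/
theorem bin_b2 {x J r3 w X1 X3 : ℝ} (hx0 : 0 < x) (hx3 : x ≤ 1 / 3) (hJ : J * x = 1 - x)
    (hX1 : X1 ≤ x ^ 2) (hX30 : 0 < X3) (hX3 : X3 ≤ x) (hr3 : -1 ≤ r3) (hw : 1 ≤ w)
    (hA : x * (1 + x) * (w * J + (1 + r3 * X3)) < 1 + X1) : False := by
  have hJ0 : 0 < J := by
    by_contra hcon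
    push Not at hcon
    nlinarith
  have h1 : J ≤ w * J := le_mul_of_one_le_left hJ0.le hw
  have h4 : 1 - x ≤ 1 + r3 * X3 := by nlinarith
  have h5 : x * (1 + x) * (J + (1 - x)) < 1 + X1 := by
    refine lt_of_le_of_lt ?_ hA
    apply mul_le_mul_of_nonneg_left (by linarith) (by positivity)
  have h6 : x * (1 + x) * (J + (1 - x)) = (1 + x) * (J * x + x * (1 - x)) := by ring
  rw [h6, hJ] at h5
  have h7 : 0 < x * (1 - 2 * x - x ^ 2) := mul_pos hx0 (by nlinarith)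
  nlinarith

/-- `w = 1 - x`, `r1 = r3 = -1`, the same exponent. -/
theorem bin_c1 {x J t Xk : ℝ} (hx0 : 0 < x) (hx3 : x ≤ 1 / 3) (hJ : J * x = 1 - x)
    (hX0 : 0 < Xk) (hX1 : Xk ≤ x) (ht : -J ≤ t)
    (hA : x * (1 + x) * ((1 - x) * (J + t * Xk) + (1 - Xk)) < 1 - Xk) : False := by
  have h1 : J * (1 - Xk) ≤ J + t * Xk := by nlinarith
  have h5 : x * (1 + x) * ((1 - x) * (J * (1 - Xk)) + (1 - Xk)) < 1 - Xk := by
    refine lt_of_le_of_lt ?_ hA
    apply mul_le_mul_of_nonneg_left _ (by positivity)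
    have := mul_le_mul_of_nonneg_left h1 (by linarith : (0 : ℝ) ≤ 1 - x)
    linarith
  have h6 : x * (1 + x) * ((1 - x) * (J * (1 - Xk)) + (1 - Xk)) =
      (1 - Xk) * (1 + x) * ((1 - x) * (J * x) + x) := by ring
  rw [h6, hJ] at h5
  have h7 : 0 ≤ (1 - Xk) * x ^ 3 := mul_nonneg (by linarith) (by positivity)
  nlinarith

/-- `w = 1 - x`, `r1 = r3 = -1`, `t = 0`: both points. -/
theorem bin_c2 {x y J : ℝ} {k1 k3 : ℕ} (hx0 : 0 < x) (hx3 : x ≤ 1 / 3) (hy0 : 0 < y)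
    (hy2 : y ≤ 1 / 2) (hJ : J * x = 1 - x) (hJy : J * y = 1) (hk3 : 1 ≤ k3)
    (hA : x * (1 + x) * ((1 - x) * J + (1 - x ^ k3)) < 1 - x ^ k1)
    (hB : 1 - y ^ k1 ≤ y * ((1 - y) * J + (1 - y ^ k3))) : False := by
  have h1 : x * (1 + x) * ((1 - x) * J + (1 - x ^ k3)) =
      (1 + x) * ((1 - x) * (J * x) + x - x ^ k3 * x) := by ring
  rw [h1, hJ] at hA
  have h2 : y * ((1 - y) * J + (1 - y ^ k3)) = (1 - y) * (J * y) + y - y ^ k3 * y := by ring
  rw [h2, hJy] at hB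
  have h3 : y ^ k3 * y ≤ y ^ k1 := by linarith
  have h4 : k1 ≤ k3 + 1 := by
    by_contra hcon
    push Not at hcon
    have h5 : y ^ k1 < y ^ (k3 + 1) := pow_lt_pow_right_of_lt_one₀ hy0 (by linarith) hcon
    rw [pow_succ] at h5
    linarith
  have h5 : x ^ (k3 + 1) ≤ x ^ k1 := pow_le_pow_of_le_one hx0.le (by linarith) h4
  rw [pow_succ] at h5
  have h6 : x ^ k3 ≤ x := by
    calc x ^ k3 ≤ x ^ 1 := pow_le_pow_of_le_one hx0.le (by linarith) hk3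
      _ = x := pow_one x
  have h7 : x ^ k3 * x * x ≤ x * x * x := by
    apply mul_le_mul_of_nonneg_right _ hx0.le
    apply mul_le_mul_of_nonneg_right h6 hx0.le
  nlinarith

/-- `w = 1 + x`, `|r1| ≤ 1`, the same exponent `≥ 2`. -/
theorem bin_d1 {x J t r1 r3 Xk : ℝ} (hx0 : 0 < x) (hx3 : x ≤ 1 / 3) (hJ : J * x = 1 - x)
    (hX0 : 0 < Xk) (hX1 : Xk ≤ x ^ 2) (ht : -J ≤ t) (hr1 : r1 ≤ 1) (hr3 : -1 - J - t ≤ r3)
    (hA : x * (1 + x) * ((1 + x) * (J + t * Xk) + (1 + r3 * Xk)) < 1 + r1 * Xk) : False := by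
  have h1 : r1 * Xk ≤ Xk := by nlinarith
  have h2 : x * t - 1 - J ≤ (1 + x) * t + r3 := by linarith
  have h3 : -(J * x) - 1 - J ≤ (1 + x) * t + r3 := by nlinarith
  have h4 : (1 + x) * J + 1 + (-(J * x) - 1 - J) * Xk ≤
      (1 + x) * (J + t * Xk) + (1 + r3 * Xk) := by nlinarith
  have h5 : x * (1 + x) * ((1 + x) * J + 1 + (-(J * x) - 1 - J) * Xk) < 1 + Xk := by
    refine lt_of_le_of_lt ?_ (lt_of_lt_of_le hA (by linarith : 1 + r1 * Xk ≤ 1 + Xk))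
    apply mul_le_mul_of_nonneg_left h4 (by positivity)
  have h6 : x * (1 + x) * ((1 + x) * J + 1 + (-(J * x) - 1 - J) * Xk) =
      (1 + x) * ((1 + x) * (J * x) + x + (-(J * x) * x - x - J * x) * Xk) := by ring
  rw [h6, hJ] at h5
  have h7 : (1 + x) * ((1 + x) * (1 - x) + x + (-(1 - x) * x - x - (1 - x)) * Xk) =
      (1 + 2 * x - x ^ 3) * (1 - Xk) := by ring
  rw [h7] at h5
  have h8 : 0 < 1 + 2 * x - x ^ 3 := by
    have : x ^ 3 ≤ (1 / 3) ^ 3 := pow_le_pow_left₀ hx0.le hx3 3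
    nlinarith
  have h9 : (1 + 2 * x - x ^ 3) * (1 - x ^ 2) ≤ (1 + 2 * x - x ^ 3) * (1 - Xk) :=
    mul_le_mul_of_nonneg_left (by linarith) h8.le
  have h10 : 0 < x * (2 - 2 * x - 3 * x ^ 2 + x ^ 4) := by
    apply mul_pos hx0
    have : 0 < x ^ 4 := by positivity
    nlinarith
  nlinarith

/-- `w = 1 + x`, `t = 0`, `k1 ≥ 2`. -/
theorem bin_d2 {x J r1 r3 X1 X3 : ℝ} (hx0 : 0 < x) (hx3 : x ≤ 1 / 3) (hJ : J * x = 1 - x)
    (hX10 : 0 < X1) (hX1 : X1 ≤ x ^ 2) (hX30 : 0 < X3) (hX3 : X3 ≤ x) (hr1 : r1 ≤ 1)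
    (hr3 : 1 - J ≤ r3)
    (hA : x * (1 + x) * ((1 + x) * J + (1 + r3 * X3)) < 1 + r1 * X1) : False := by
  have hJ1 : 1 ≤ J := by
    by_contra hcon
    push Not at hcon
    nlinarith
  have h1 : r1 * X1 ≤ X1 := by nlinarith
  have h2 : (1 - J) * x ≤ r3 * X3 := by
    rcases le_total 0 r3 with h | h
    · have := mul_nonneg h hX30.le
      nlinarith
    · have h3 : r3 * x ≤ r3 * X3 := mul_le_mul_of_nonpos_left hX3 h
      have h4 : (1 - J) * x ≤ r3 * x := mul_le_mul_of_nonneg_right hr3 hx0.le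
      linarith
  have h5 : x * (1 + x) * ((1 + x) * J + (1 + (1 - J) * x)) < 1 + X1 := by
    refine lt_of_le_of_lt ?_ (lt_of_lt_of_le hA (by linarith : 1 + r1 * X1 ≤ 1 + X1))
    apply mul_le_mul_of_nonneg_left (by linarith) (by positivity)
  have h6 : x * (1 + x) * ((1 + x) * J + (1 + (1 - J) * x)) =
      (1 + x) * ((1 + x) * (J * x) + x + (x - J * x) * x) := by ring
  rw [h6, hJ] at h5
  have : 0 < x ^ 3 := by positivity
  nlinarith

/-- `w = 1 + x`, all exponents one, `r1 = 1`: both points. -/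
theorem bin_d3 {x y J t r3 : ℝ} (hx0 : 0 < x) (hxy : x < y)
    (hJ : J * x = 1 - x) (hJy : J * y = 1) (hr3 : |1 - r3| ≤ |J - t|)
    (hA : x * (1 + x) * ((1 + x) * (J + t * x) + (1 + r3 * x)) < 1 + x)
    (hB : 1 + y ≤ y * ((1 + y) * (J + t * y) + (1 + r3 * y))) : False := by
  have hy0 : 0 < y := lt_trans hx0 hxy
  have hJ0 : 0 < J := by
    by_contra hcon
    push Not at hcon
    nlinarith
  have h1 : x * ((1 + x) * (J + t * x) + (1 + r3 * x)) < 1 := by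
    by_contra hcon
    push Not at hcon
    nlinarith
  have h2 : J + (1 + x) * t + r3 < 0 := by
    have h3 : x * ((1 + x) * (J + t * x) + (1 + r3 * x)) =
        (1 + x) * (J * x) + x + x ^ 2 * ((1 + x) * t + r3) := by ring
    rw [h3, hJ] at h1
    have h4 : x * ((1 - x) + x * ((1 + x) * t + r3)) < 0 := by nlinarith
    rw [← hJ] at h4
    have h5 : x ^ 2 * (J + (1 + x) * t + r3) < 0 := by nlinarith
    by_contra hcon
    push Not at hcon
    nlinarith [mul_nonneg (sq_nonneg x) hcon]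
  have h3 : 0 ≤ J + (1 + y) * t + r3 := by
    have h4 : y * ((1 + y) * (J + t * y) + (1 + r3 * y)) =
        (1 + y) * (J * y) + y + y ^ 2 * ((1 + y) * t + r3) := by ring
    rw [h4, hJy] at hB
    have h5 : 0 ≤ y * (1 + y * ((1 + y) * t + r3)) := by nlinarith
    rw [← hJy] at h5
    have h6 : 0 ≤ y ^ 2 * (J + (1 + y) * t + r3) := by nlinarith
    by_contra hcon
    push Not at hcon
    nlinarith [mul_pos (pow_pos hy0 2) (neg_pos.mpr hcon)]
  have h4 : 0 < (y - x) * t := by nlinarith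
  have h5 : 0 < t := by
    by_contra hcon
    push Not at hcon
    nlinarith [mul_nonneg (by linarith : (0 : ℝ) ≤ y - x) (by linarith : (0 : ℝ) ≤ -t)]
  have h6 := le_abs_self (1 - r3)
  have h7 : |J - t| ≤ J + t := by
    rw [abs_le]
    constructor <;> linarith
  have h8 : 0 < x * t := mul_pos hx0 h5
  rcases le_total 0 (J - t) with h9 | h9
  · rw [abs_of_nonneg h9] at hr3
    nlinarith
  · rw [abs_of_nonpos h9] at hr3
    nlinarith

/-- `w = 1 + x`, `t = 0`, `k1 = 1`, `r1 = 1`. -/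
theorem bin_d4 {x J r3 X3 : ℝ} (hx0 : 0 < x) (hx3 : x ≤ 1 / 3) (hJ : J * x = 1 - x)
    (hX30 : 0 < X3) (hX3 : X3 ≤ x) (hr3 : 1 - J ≤ r3)
    (hA : x * (1 + x) * ((1 + x) * J + (1 + r3 * X3)) < 1 + x) : False := by
  have hJ1 : 1 ≤ J := by
    by_contra hcon
    push Not at hcon
    nlinarith
  have h2 : (1 - J) * x ≤ r3 * X3 := by
    rcases le_total 0 r3 with h | h
    · have := mul_nonneg h hX30.le
      nlinarith
    · have h3 : r3 * x ≤ r3 * X3 := mul_le_mul_of_nonpos_left hX3 h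
      have h4 : (1 - J) * x ≤ r3 * x := mul_le_mul_of_nonneg_right hr3 hx0.le
      linarith
  have h5 : x * (1 + x) * ((1 + x) * J + (1 + (1 - J) * x)) < 1 + x := by
    refine lt_of_le_of_lt ?_ hA
    apply mul_le_mul_of_nonneg_left (by linarith) (by positivity)
  have h6 : x * (1 + x) * ((1 + x) * J + (1 + (1 - J) * x)) =
      (1 + x) * ((1 + x) * (J * x) + x + (x - J * x) * x) := by ring
  rw [h6, hJ] at h5
  nlinarith [mul_pos hx0 hx0]

end Pool.Agent.B5.KO.H95
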