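import Pool.Agent.Lib.MP_b5021c_nt.IfaceOC
import Pool.Agent.Lib.MP_b5021c_nt.KO.H95.V1b

/-!
# MP_b5021c_nt, all `θ`, K ODD, (O4), cycles of length at least five: row V1 of IfaceOC.lean
(helper95)
-/

namespace Pool.Agent.B5.KO.H95

open Polynomial
open Pool.Agent.B5
open Pool.Agent.B5.O4X

/-- The two forms of `(p, g)`. -/
theorem cn_cases {j : ℕ} {p g : ℤ[X]} (h : BPR.Cn j p g) :
    (∃ (k : ℕ) (t r : ℤ), 1 ≤ k ∧ p = C (j : ℤ) + C t * X ^ k ∧ g = 1 + C r * X ^ k) ∨
    ∃ (sg : ℕ) (F : ℤ[X]), 1 ≤ sg ∧ sg + 2 ≤ j ∧ F.coeff 0 = 0 ∧ (∀ k, |F.coeff k| ≤ 1) ∧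
      p = C (j : ℤ) + C (sg : ℤ) * F ∧ (g = 1 + F ∨ g = 1) := by
  by_cases hg : g = 1
  · rcases h.2 hg with ⟨k, t, hk, hp⟩ | ⟨s, M, F, hs, ⟨hM, F0, Fk, -⟩, hp⟩
    · exact Or.inl ⟨k, t, 0, hk, hp, by rw [hg]; simp⟩
    · exact Or.inr ⟨s + 1, F, by omega, by omega, F0, Fk, by push_cast; exact hp, Or.inr hg⟩
  · rcases h.1 hg with h1 | ⟨s, M, F, hs, ⟨hM, F0, Fk, -⟩, hp, hg'⟩
    · exact Or.inl h1
    · exact Or.inr ⟨s + 1, F, by omega, by omega, F0, Fk, by push_cast; exact hp, Or.inl hg'⟩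

/-- UF with a binomial. -/
theorem uf_mono {j sg k : ℕ} {t : ℤ} {F : ℤ[X]}
    (h : (C (j : ℤ) + C (sg : ℤ) * F : ℤ[X]) = C (j : ℤ) + C t * X ^ k) (hsg : 1 ≤ sg) :
    ∃ u : ℤ, F = C u * X ^ k := by
  have h1 : (C (sg : ℤ) * F : ℤ[X]) = C t * X ^ k := add_left_cancel h
  refine ⟨F.coeff k, ?_⟩
  ext m
  rw [coeff_C_mul_X_pow]
  have h2 := congrArg (fun P => P.coeff m) h1
  simp only [coeff_C_mul, coeff_X_pow] at h2
  by_cases hm : m = k
  · rw [if_pos hm, hm]
  · rw [if_neg hm]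
    rw [if_neg hm, mul_zero] at h2
    have h3 : (sg : ℤ) ≠ 0 := by omega
    exact (mul_eq_zero.mp h2).resolve_left h3

/-- Two UF forms of the same `p`. -/
theorem uf_eq {j sg sg' : ℕ} {F F' : ℤ[X]} (hsg : 1 ≤ sg) (hsg' : 1 ≤ sg')
    (Fk : ∀ k, |F.coeff k| ≤ 1) (Fk' : ∀ k, |F'.coeff k| ≤ 1)
    (h : (C (j : ℤ) + C (sg : ℤ) * F : ℤ[X]) = C (j : ℤ) + C (sg' : ℤ) * F') : F = F' := by
  have h1 : (C (sg : ℤ) * F : ℤ[X]) = C (sg' : ℤ) * F' := add_left_cancel h
  have h2 : ∀ m, (sg : ℤ) * F.coeff m = sg' * F'.coeff m := by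
    intro m
    have h2 := congrArg (fun P => P.coeff m) h1
    simpa only [coeff_C_mul] using h2
  ext m
  have h3 := h2 m
  have h4 := abs_le.mp (Fk m)
  have h5 := abs_le.mp (Fk' m)
  have h6 : (1 : ℤ) ≤ sg := by exact_mod_cast hsg
  have h7 : (1 : ℤ) ≤ sg' := by exact_mod_cast hsg'
  have h8 : F.coeff m = 0 ∨ F.coeff m = 1 ∨ F.coeff m = -1 := by omega
  have h9 : F'.coeff m = 0 ∨ F'.coeff m = 1 ∨ F'.coeff m = -1 := by omega
  rcases h8 with h8 | h8 | h8 <;> rcases h9 with h9 | h9 | h9 <;> rw [h8, h9] at h3 ⊢ <;> omega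

theorem aCc (z : ℂ) (n : ℤ) : (aeval z (C n) : ℂ) = n := by simp

/-- A root of `1 - s X^n` on the circle; if `n ≥ 2` or `s = 1` it is not `-1`. -/
theorem root_ex {n : ℕ} {s : ℤ} (hn : 1 ≤ n) (hs : s = 1 ∨ s = -1) :
    ∃ z : ℂ, ‖z‖ = 1 ∧ 1 - (s : ℂ) * z ^ n = 0 ∧ (2 ≤ n ∨ s = 1 → 1 + z ≠ 0) := by
  rcases hs with rfl | rfl
  · refine ⟨1, by simp, by simp, fun _ => ?_⟩
    norm_num
  · have hn0 : (n : ℂ) ≠ 0 := by
      have : n ≠ 0 := by omega
      exact_mod_cast this
    refine ⟨Complex.exp ((Real.pi / n : ℝ) * Complex.I), Complex.norm_exp_ofReal_mul_I _, ?_, ?_⟩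
    · rw [← Complex.exp_nat_mul]
      have h1 : (n : ℂ) * (((Real.pi / n : ℝ) : ℂ) * Complex.I) = Real.pi * Complex.I := by
        push_cast
        field_simp
      rw [h1, Complex.exp_pi_mul_I]
      push_cast
      ring
    · intro h2 h3
      have h4 : 2 ≤ n := by
        rcases h2 with h2 | h2
        · exact h2
        · norm_num at h2
      have h5 := congrArg Complex.im h3
      rw [Complex.add_im, Complex.one_im, Complex.exp_ofReal_mul_I_im, zero_add,
        Complex.zero_im] at h5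
      have hn' : (0 : ℝ) < n := by
        have : 0 < n := by omega
        exact_mod_cast this
      have h6 : 0 < Real.sin (Real.pi / n) := by
        apply Real.sin_pos_of_pos_of_lt_pi (div_pos Real.pi_pos hn')
        rw [div_lt_iff₀ hn']
        have : (2 : ℝ) ≤ n := by exact_mod_cast h4
        nlinarith [Real.pi_pos]
      linarith

/-- `z^k = -1` on the circle. -/
theorem neg_ex {k : ℕ} (hk : 1 ≤ k) : ∃ z : ℂ, ‖z‖ = 1 ∧ z ^ k = -1 := by
  obtain ⟨z, h1, h2, -⟩ := root_ex (s := -1) hk (Or.inr rfl)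
  refine ⟨z, h1, ?_⟩
  push_cast at h2
  linear_combination h2

/-- `t ≥ - j` if `j + t z^k` has no zero in the disc. -/
theorem t_ge {j k : ℕ} {t : ℤ} (hj : 1 ≤ j) (hk : 1 ≤ k)
    (hz : ∀ z : ℂ, ‖z‖ < 1 → (aeval z (C (j : ℤ) + C t * X ^ k : ℤ[X]) : ℂ) ≠ 0) :
    -(j : ℤ) ≤ t := by
  by_contra hcon
  push Not at hcon
  have h1 : (t : ℝ) < -j := by exact_mod_cast hcon
  have hj0 : (0 : ℝ) < j := by exact_mod_cast hj
  have ht0 : (t : ℝ) < 0 := by linarith
  -- the real root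
  have hc : ContinuousOn (fun v : ℝ => (j : ℝ) + t * v ^ k) (Set.Icc 0 1) := by
    apply Continuous.continuousOn
    fun_prop
  have h2 : (0 : ℝ) ∈ Set.Icc ((j : ℝ) + t * 1 ^ k) ((j : ℝ) + t * 0 ^ k) := by
    constructor
    · rw [one_pow]
      linarith
    · rw [zero_pow (by omega)]
      linarith
  obtain ⟨v, hv, hv0⟩ := intermediate_value_Icc' (zero_le_one) hc h2
  have hv1 : v < 1 := by
    rcases lt_or_eq_of_le hv.2 with h | h
    · exact h
    · exfalso
      rw [h] at hv0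
      simp only [one_pow] at hv0
      linarith
  apply hz (v : ℂ)
  · rw [Complex.norm_real, Real.norm_eq_abs, abs_of_nonneg hv.1]
    exact hv1
  · rw [map_add, map_mul, map_pow, aeval_X, aCc, aCc]
    have h3 : ((j : ℝ) : ℂ) + (t : ℝ) * (v : ℂ) ^ k = 0 := by
      have := congrArg (fun w : ℝ => (w : ℂ)) hv0
      push_cast at this ⊢
      exact this
    push_cast at h3 ⊢
    exact h3

/-- The bounds for `1 + r z^k` by `j + t z^l` at `z = 1`. -/
theorem one_le {j k l : ℕ} {t r : ℤ}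
    (hb : ∀ z : ℂ, ‖z‖ = 1 → ‖(aeval z (1 + C r * X ^ k : ℤ[X]) : ℂ)‖ ≤
      ‖(aeval z (C (j : ℤ) + C t * X ^ l : ℤ[X]) : ℂ)‖) : |1 + r| ≤ |(j : ℤ) + t| := by
  have h1 := hb 1 (by simp)
  rw [map_add, map_add, map_mul, map_mul, map_pow, map_pow, aeval_X, aCc, aCc, aCc, map_one,
    one_pow, one_pow, mul_one, mul_one] at h1
  have h2 : (1 : ℂ) + r = ((1 + r : ℤ) : ℂ) := by push_cast; ring
  have h3 : (((j : ℤ) : ℂ)) + t = (((j : ℤ) + t : ℤ) : ℂ) := by push_cast; ring
  rw [h2, h3, Complex.norm_intCast, Complex.norm_intCast] at h1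
  exact_mod_cast h1

/-- At `z^k = -1`. -/
theorem neg_le {j k : ℕ} {t r : ℤ} (hk : 1 ≤ k)
    (hb : ∀ z : ℂ, ‖z‖ = 1 → ‖(aeval z (1 + C r * X ^ k : ℤ[X]) : ℂ)‖ ≤
      ‖(aeval z (C (j : ℤ) + C t * X ^ k : ℤ[X]) : ℂ)‖) : |1 - r| ≤ |(j : ℤ) - t| := by
  obtain ⟨z, hz1, hz⟩ := neg_ex hk
  have h1 := hb z hz1
  rw [map_add, map_add, map_mul, map_mul, map_pow, aeval_X, aCc, aCc, aCc, map_one, hz] at h1
  have h2 : (1 : ℂ) + r * -1 = ((1 - r : ℤ) : ℂ) := by push_cast; ring
  have h3 : (((j : ℤ) : ℂ)) + t * -1 = (((j : ℤ) - t : ℤ) : ℂ) := by push_cast; ring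
  rw [h2, h3, Complex.norm_intCast, Complex.norm_intCast] at h1
  exact_mod_cast h1

/-- `1 + r z^k = 0` on the circle: `r = ±1`. -/
theorem r_unit {k : ℕ} {r : ℤ} {z : ℂ} (hz : ‖z‖ = 1)
    (h : (aeval z (1 + C r * X ^ k : ℤ[X]) : ℂ) = 0) : r = 1 ∨ r = -1 := by
  rw [map_add, map_mul, map_pow, aeval_X, aCc, map_one] at h
  have h1 : (r : ℂ) * z ^ k = -1 := by linear_combination h
  have h2 := congrArg (fun w : ℂ => ‖w‖) h1
  simp only [norm_mul, norm_pow, hz, one_pow, mul_one, norm_neg, norm_one,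
    Complex.norm_intCast] at h2
  have h3 : |r| = 1 := by exact_mod_cast h2
  rcases abs_eq (by norm_num : (0 : ℤ) ≤ 1) |>.mp h3 with h4 | h4
  · exact Or.inl h4
  · exact Or.inr h4

/-- Two binomial forms of the same `p`. -/
theorem mono_eq {j k k' : ℕ} {t t' : ℤ}
    (h : (C (j : ℤ) + C t * X ^ k : ℤ[X]) = C (j : ℤ) + C t' * X ^ k') :
    (t = 0 ∧ t' = 0) ∨ (k = k' ∧ t = t') := by
  have h1 : (C t * X ^ k : ℤ[X]) = C t' * X ^ k' := add_left_cancel h
  have h2 := congrArg (fun P => P.coeff k) h1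
  have h3 := congrArg (fun P => P.coeff k') h1
  simp only [coeff_C_mul_X_pow] at h2 h3
  by_cases hk : k = k'
  · right
    subst hk
    simpa using h2
  · left
    have hk' : ¬ k' = k := fun h => hk h.symm
    simp only [if_true, if_neg hk, if_neg hk'] at h2 h3
    exact ⟨h2, h3.symm⟩

section

variable {q f E γ cc p g1 g3 : ℤ[X]} {j n : ℕ} {s : ℤ} {x y : ℝ}

/-- The two points. -/
theorem two_pts (H : Tp j q f x y) (eE : f - q = X * E) (hn : 1 ≤ n) (hs : s = 1 ∨ s = -1)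
    (hc : cc = 1 ∨ cc = 1 + X) (hE : E = cc * p + γ)
    (h1 : cc * g1 = (1 + X) * (1 - C s * X ^ n) * f) (h3 : cc * g3 = (1 - C s * X ^ n) * γ) :
    x * (1 + x) * ((1 - s * x ^ n) * (aeval x p : ℝ) + aeval x g3) < (aeval x g1 : ℝ) ∧
    (aeval y g1 : ℝ) ≤ y * ((1 - s * y ^ n) * (aeval y p : ℝ) + aeval y g3) := by
  have hj : (2 : ℝ) ≤ j := by exact_mod_cast H.j2
  have hx0 := H.x0
  have hy0 := H.y0
  have hx := H.hx
  have hy := H.hy
  have hx3 : x ≤ 1 / 3 := by nlinarith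
  have hy2 : y ≤ 1 / 2 := by nlinarith
  have hc0 : ∀ v : ℝ, 0 < v → 0 < (aeval v cc : ℝ) := by
    intro v hv
    rcases hc with rfl | rfl
    · rw [map_one]; norm_num
    · rw [map_add, map_one, aeval_X]; linarith
  have hw : ∀ v : ℝ, 0 < v → v ≤ 1 / 2 → 0 < 1 - s * v ^ n := by
    intro v hv hv2
    have h4 : v ^ n ≤ v := by
      calc v ^ n ≤ v ^ 1 := pow_le_pow_of_le_one hv.le (by linarith) hn
        _ = v := pow_one v
    have h5 : 0 < v ^ n := pow_pos hv n
    rcases hs with rfl | rfl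
    · push_cast; linarith
    · push_cast; linarith
  have e1 : ∀ v : ℝ, (aeval v cc : ℝ) * aeval v g1 = (1 + v) * (1 - s * v ^ n) * aeval v f := by
    intro v
    have := congrArg (fun P => (aeval v P : ℝ)) h1
    simpa only [map_mul, map_add, map_sub, map_one, aeval_X, map_pow, aC] using this
  have e3 : ∀ v : ℝ, (aeval v cc : ℝ) * aeval v g3 = (1 - s * v ^ n) * aeval v γ := by
    intro v
    have := congrArg (fun P => (aeval v P : ℝ)) h3
    simpa only [map_mul, map_add, map_sub, map_one, aeval_X, map_pow, aC] using this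
  have eq : ∀ v : ℝ, (aeval v q : ℝ) = aeval v f - v * (aeval v cc * aeval v p + aeval v γ) := by
    intro v
    have h4 : q = f - X * (cc * p + γ) := by rw [← hE, ← eE]; ring
    rw [h4, map_sub, map_mul, map_add, map_mul, aeval_X]
  constructor
  · have h4 := H.I
    rw [eq] at h4
    have hcx := hc0 x hx0
    have hwx := hw x hx0 (by linarith)
    have h5 : 0 < (aeval x cc : ℝ) * ((aeval x g1 : ℝ) -
        x * (1 + x) * ((1 - s * x ^ n) * (aeval x p : ℝ) + aeval x g3)) := by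
      have h6 : (aeval x cc : ℝ) * ((aeval x g1 : ℝ) -
          x * (1 + x) * ((1 - s * x ^ n) * (aeval x p : ℝ) + aeval x g3)) =
          (aeval x cc * aeval x g1) - x * (1 + x) * ((1 - s * x ^ n) * (aeval x cc * aeval x p) +
            (aeval x cc * aeval x g3)) := by ring
      rw [h6, e1, e3]
      have h7 : (1 + x) * (1 - s * x ^ n) * (aeval x f : ℝ) -
          x * (1 + x) * ((1 - s * x ^ n) * (aeval x cc * aeval x p) +
            (1 - s * x ^ n) * aeval x γ) =
          ((1 + x) * (1 - s * x ^ n)) * ((aeval x f : ℝ) -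
            x * (aeval x cc * aeval x p + aeval x γ)) := by ring
      rw [h7]
      exact mul_pos (mul_pos (by linarith) hwx) h4
    have h6 := (mul_pos_iff_of_pos_left hcx).mp h5
    linarith
  · have h4 := H.II
    rw [eq] at h4
    have hcy := hc0 y hy0
    have hwy := hw y hy0 hy2
    have h5 : (aeval y cc : ℝ) * ((aeval y g1 : ℝ) -
        y * ((1 - s * y ^ n) * (aeval y p : ℝ) + aeval y g3)) ≤ 0 := by
      have h6 : (aeval y cc : ℝ) * ((aeval y g1 : ℝ) -
          y * ((1 - s * y ^ n) * (aeval y p : ℝ) + aeval y g3)) =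
          (aeval y cc * aeval y g1) - y * ((1 - s * y ^ n) * (aeval y cc * aeval y p) +
            (aeval y cc * aeval y g3)) := by ring
      rw [h6, e1, e3]
      have h7 : (1 + y) * (1 - s * y ^ n) * (aeval y f : ℝ) -
          y * ((1 - s * y ^ n) * (aeval y cc * aeval y p) +
            (1 - s * y ^ n) * aeval y γ) =
          (1 - s * y ^ n) * ((aeval y f : ℝ) - y * (aeval y cc * aeval y p + aeval y γ) +
            y * aeval y f) := by ring
      rw [h7]
      exact mul_nonpos_of_nonneg_of_nonpos hwy.le h4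
    by_contra hcon
    push Not at hcon
    linarith [mul_pos hcy (by linarith : 0 < (aeval y g1 : ℝ) -
        y * ((1 - s * y ^ n) * (aeval y p : ℝ) + aeval y g3))]

/-- `g1` vanishes at the roots of `1 - s X^n`. -/
theorem g1_root (hc : cc = 1 ∨ cc = 1 + X)
    (h1 : cc * g1 = (1 + X) * (1 - C s * X ^ n) * f) :
    ∃ h : ℤ[X], g1 = (1 - C s * X ^ n) * h := by
  rcases hc with rfl | rfl
  · exact ⟨(1 + X) * f, by rw [one_mul] at h1; rw [h1]; ring⟩
  · refine ⟨f, ?_⟩
    have h2 : (1 + X : ℤ[X]) ≠ 0 := by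
      intro h0
      have := congrArg (fun P => P.coeff 0) h0
      simp at this
    apply mul_left_cancel₀ h2
    rw [h1]
    ring

theorem ev_root {h : ℤ[X]} {z : ℂ} (hz : 1 - (s : ℂ) * z ^ n = 0) :
    (aeval z ((1 - C s * X ^ n) * h) : ℂ) = 0 := by
  rw [map_mul, map_sub, map_mul, map_one, map_pow, aeval_X, aCc, hz, zero_mul]

theorem g3_root (hc : cc = 1 ∨ cc = 1 + X) (h3 : cc * g3 = (1 - C s * X ^ n) * γ) {z : ℂ}
    (hz : 1 - (s : ℂ) * z ^ n = 0) (hz1 : 1 + z ≠ 0) : (aeval z g3 : ℂ) = 0 := by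
  have h4 := congrArg (fun P => (aeval z P : ℂ)) h3
  rw [ev_root hz, map_mul] at h4
  rcases mul_eq_zero.mp h4 with h5 | h5
  · exfalso
    rcases hc with rfl | rfl
    · simp at h5
    · rw [map_add, map_one, aeval_X] at h5
      exact hz1 h5
  · exact h5

end

/-- TWO BINOMIALS. -/
theorem v1_bin {q f γ cc p g1 g3 : ℤ[X]} {j n k1 k3 : ℕ} {s t1 t3 r1 r3 : ℤ} {x y : ℝ}
    (H : Tp j q f x y) (hn : 1 ≤ n) (hs : s = 1 ∨ s = -1)
    (hc : cc = 1 ∨ cc = 1 + X)
    (h1 : cc * g1 = (1 + X) * (1 - C s * X ^ n) * f) (h3 : cc * g3 = (1 - C s * X ^ n) * γ)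
    (hz : ∀ z : ℂ, ‖z‖ < 1 → (aeval z p : ℂ) ≠ 0)
    (hb1 : ∀ z : ℂ, ‖z‖ = 1 → ‖(aeval z g1 : ℂ)‖ ≤ ‖(aeval z p : ℂ)‖)
    (hb3 : ∀ z : ℂ, ‖z‖ = 1 → ‖(aeval z g3 : ℂ)‖ ≤ ‖(aeval z p : ℂ)‖)
    (hA : x * (1 + x) * ((1 - s * x ^ n) * (aeval x p : ℝ) + aeval x g3) < (aeval x g1 : ℝ))
    (hB : (aeval y g1 : ℝ) ≤ y * ((1 - s * y ^ n) * (aeval y p : ℝ) + aeval y g3))
    (hk1 : 1 ≤ k1) (hk3 : 1 ≤ k3)
    (hp1 : p = C (j : ℤ) + C t1 * X ^ k1) (hg1 : g1 = 1 + C r1 * X ^ k1)
    (hp3 : p = C (j : ℤ) + C t3 * X ^ k3) (hg3 : g3 = 1 + C r3 * X ^ k3) : False := by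
  have hj : (2 : ℝ) ≤ j := by exact_mod_cast H.j2
  have hx0 := H.x0
  have hy0 := H.y0
  have hxy := H.xy
  have hx := H.hx
  have hy := H.hy
  have hx3 : x ≤ 1 / 3 := by nlinarith
  have hy2 : y ≤ 1 / 2 := by nlinarith
  have hJ : (j : ℝ) * x = 1 - x := by linarith
  have hJy : (j : ℝ) * y = 1 := by linarith
  -- the root
  obtain ⟨z0, hz1, hz2, hz3⟩ := root_ex (n := n) hn hs
  obtain ⟨h, hh⟩ := g1_root (g1 := g1) (f := f) (n := n) (s := s) hc h1
  have hr1 : r1 = 1 ∨ r1 = -1 := by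
    apply r_unit (k := k1) hz1
    rw [← hg1, hh]
    exact ev_root hz2
  -- values
  have ev1 : ∀ v : ℝ, (aeval v g1 : ℝ) = 1 + r1 * v ^ k1 := by
    intro v
    rw [hg1, map_add, map_mul, map_pow, aeval_X, aC, map_one]
  have ev3 : ∀ v : ℝ, (aeval v g3 : ℝ) = 1 + r3 * v ^ k3 := by
    intro v
    rw [hg3, map_add, map_mul, map_pow, aeval_X, aC, map_one]
  have evp1 : ∀ v : ℝ, (aeval v p : ℝ) = j + t1 * v ^ k1 := by
    intro v
    rw [hp1, map_add, map_mul, map_pow, aeval_X, aC, aC, Int.cast_natCast]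
  have evp3 : ∀ v : ℝ, (aeval v p : ℝ) = j + t3 * v ^ k3 := by
    intro v
    rw [hp3, map_add, map_mul, map_pow, aeval_X, aC, aC, Int.cast_natCast]
  rw [ev1, ev3] at hA hB
  have ht1 : -(j : ℤ) ≤ t1 := by
    apply t_ge (k := k1) (by have := H.j2; omega) hk1
    rw [← hp1]
    exact hz
  have ht3 : -(j : ℤ) ≤ t3 := by
    apply t_ge (k := k3) (by have := H.j2; omega) hk3
    rw [← hp3]
    exact hz
  have hxk : ∀ k : ℕ, 1 ≤ k → 0 < x ^ k ∧ x ^ k ≤ x := by
    intro k hk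
    refine ⟨pow_pos hx0 k, ?_⟩
    calc x ^ k ≤ x ^ 1 := pow_le_pow_of_le_one hx0.le (by linarith) hk
      _ = x := pow_one x
  have hxk2 : ∀ k : ℕ, 2 ≤ k → x ^ k ≤ x ^ 2 := fun k hk =>
    pow_le_pow_of_le_one hx0.le (by linarith) hk
  have hcas := mono_eq (j := j) (k := k1) (k' := k3) (t := t1) (t' := t3) (by rw [← hp1, ← hp3])
  have hdeg : 2 ≤ n → 2 ≤ k1 := by
    intro hn2
    by_contra hcon
    have hk : k1 = 1 := by omega
    have h4 : g1.natDegree ≤ 1 := by
      rw [hg1, hk, pow_one]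
      have h5 : (1 + C r1 * X : ℤ[X]) = C r1 * X + C 1 := by rw [map_one]; ring
      rw [h5]
      exact natDegree_linear_le
    have hg10 : g1.coeff 0 = 1 := by
      rw [hg1, hk]
      simp
    have hh0 : h ≠ 0 := by
      rintro rfl
      rw [hh, mul_zero, coeff_zero] at hg10
      exact zero_ne_one hg10
    have hs0 : s ≠ 0 := by rcases hs with rfl | rfl <;> norm_num
    have h6 : (1 - C s * X ^ n : ℤ[X]).natDegree = n := by
      have h7 : (1 - C s * X ^ n : ℤ[X]) = C (-s) * X ^ n + C 1 := by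
        rw [map_one, map_neg]; ring
      rw [h7, natDegree_add_C, natDegree_C_mul_X_pow n (-s) (by omega)]
    have h8 : (1 - C s * X ^ n : ℤ[X]) ≠ 0 := by
      intro h9
      rw [h9, natDegree_zero] at h6
      omega
    have h9 : g1.natDegree = n + h.natDegree := by rw [hh, natDegree_mul h8 hh0, h6]
    omega
  by_cases hn2 : 2 ≤ n
  · -- `n ≥ 2`
    have hr3 : (-1 : ℝ) ≤ r3 := by
      have h4 : r3 = 1 ∨ r3 = -1 := by
        apply r_unit (k := k3) hz1
        rw [← hg3]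
        exact g3_root hc h3 hz2 (hz3 (Or.inl hn2))
      rcases h4 with h4 | h4 <;> rw [h4] <;> norm_num
    have hk12 := hdeg hn2
    have hxn : x ^ n ≤ x ^ 2 := hxk2 n hn2
    have hxn0 : 0 < x ^ n := pow_pos hx0 n
    have hw : 1 - x ^ 2 ≤ 1 - (s : ℝ) * x ^ n := by
      rcases hs with rfl | rfl
      · push_cast; linarith
      · push_cast; nlinarith
    rcases hr1 with hr1 | hr1
    · -- `r1 = 1`, so `s = -1`
      have hs1 : s = -1 := by
        rcases hs with hs1 | hs1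
        · exfalso
          have h4 : (aeval (1 : ℂ) g1 : ℂ) = 0 := by
            rw [hh]
            apply ev_root
            rw [hs1]
            simp
          rw [hg1, hr1, map_add, map_mul, map_pow, aeval_X, aCc, map_one, one_pow] at h4
          norm_num at h4
        · exact hs1
      have hw1 : 1 ≤ 1 - (s : ℝ) * x ^ n := by
        rw [hs1]; push_cast; linarith
      have ht2 : (2 : ℤ) - j ≤ t1 := by
        have h4 := one_le (j := j) (k := k1) (l := k1) (t := t1) (r := r1) (by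
          rw [← hg1, ← hp1]; exact hb1)
        rw [hr1, abs_of_nonneg (by norm_num : (0 : ℤ) ≤ 1 + 1),
          abs_of_nonneg (by omega : (0 : ℤ) ≤ (j : ℤ) + t1)] at h4
        omega
      have ht2' : 2 - (j : ℝ) ≤ t1 := by exact_mod_cast ht2
      rw [hr1] at hA
      push_cast at hA
      rw [one_mul] at hA
      rcases hcas with ⟨h4, h5⟩ | ⟨h4, h5⟩
      · rw [evp1, h4] at hA
        push_cast at hA
        rw [zero_mul, add_zero] at hA
        exact bin_b2 hx0 hx3 hJ (hxk2 k1 hk12) (hxk k3 hk3).1 (hxk k3 hk3).2 hr3 hw1 hA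
      · rw [evp1, ← h4] at hA
        exact bin_b1 hx0 hx3 hJ (hxk k1 hk1).1 (hxk2 k1 hk12) ht2' hr3 hw1 hA
    · -- `r1 = -1`
      rw [hr1] at hA
      have ht1' : -(j : ℝ) ≤ t1 := by exact_mod_cast ht1
      have e : (1 : ℝ) + ((-1 : ℤ) : ℝ) * x ^ k1 = 1 - x ^ k1 := by push_cast; ring
      rw [e] at hA
      rcases hcas with ⟨h4, h5⟩ | ⟨h4, h5⟩
      · rw [evp1, h4] at hA
        push_cast at hA
        rw [zero_mul, add_zero] at hA
        exact bin_a2 hx0 hx3 hJ (hxk k1 hk1).1 (hxk k3 hk3).1 (hxk k3 hk3).2 hr3 hw hA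
      · rw [evp1, ← h4] at hA
        exact bin_a1 hx0 hx3 hJ (hxk k1 hk1).1 (hxk k1 hk1).2 ht1' hr3 hw hA
  · have hn1 : n = 1 := by omega
    subst hn1
    rcases hs with hs1 | hs1
    · -- `s = 1`
      have hone : (1 : ℂ) - (s : ℂ) * 1 ^ 1 = 0 := by rw [hs1]; simp
      have hr1' : r1 = -1 := by
        have h4 : (aeval (1 : ℂ) g1 : ℂ) = 0 := by
          rw [hh]
          exact ev_root hone
        rw [hg1, map_add, map_mul, map_pow, aeval_X, aCc, map_one, one_pow, mul_one] at h4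
        have h5 : ((1 + r1 : ℤ) : ℂ) = 0 := by push_cast; exact h4
        have h6 : 1 + r1 = 0 := by exact_mod_cast h5
        omega
      have hr3' : r3 = -1 := by
        have h4 : (aeval (1 : ℂ) g3 : ℂ) = 0 := g3_root hc h3 hone (by norm_num)
        rw [hg3, map_add, map_mul, map_pow, aeval_X, aCc, map_one, one_pow, mul_one] at h4
        have h5 : ((1 + r3 : ℤ) : ℂ) = 0 := by push_cast; exact h4
        have h6 : 1 + r3 = 0 := by exact_mod_cast h5
        omega
      have ht1' : -(j : ℝ) ≤ t1 := by exact_mod_cast ht1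
      have e : ∀ (v : ℝ) (k : ℕ), (1 : ℝ) + ((-1 : ℤ) : ℝ) * v ^ k = 1 - v ^ k := by
        intro v k; push_cast; ring
      have ew : ∀ v : ℝ, (1 : ℝ) - ((1 : ℤ) : ℝ) * v ^ 1 = 1 - v := by
        intro v; push_cast; ring
      rw [hr1', hr3', hs1, e, e, ew] at hA hB
      rcases hcas with ⟨h4, h5⟩ | ⟨h4, h5⟩
      · rw [evp1, h4] at hA hB
        push_cast at hA hB
        rw [zero_mul, add_zero] at hA hB
        exact bin_c2 hx0 hx3 hy0 hy2 hJ hJy hk3 hA hB
      · rw [evp1, ← h4] at hA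
        exact bin_c1 hx0 hx3 hJ (hxk k1 hk1).1 (hxk k1 hk1).2 ht1' hA
    · -- `s = -1`
      have ew : ∀ v : ℝ, (1 : ℝ) - ((-1 : ℤ) : ℝ) * v ^ 1 = 1 + v := by
        intro v; push_cast; ring
      rw [hs1, ew] at hA hB
      have hr1' : (r1 : ℝ) ≤ 1 := by rcases hr1 with h4 | h4 <;> rw [h4] <;> norm_num
      have h13 := one_le (j := j) (k := k3) (l := k3) (t := t3) (r := r3) (by
        rw [← hg3, ← hp3]; exact hb3)
      have h33 := neg_le (j := j) (k := k3) (t := t3) (r := r3) hk3 (by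
        rw [← hg3, ← hp3]; exact hb3)
      rw [abs_of_nonneg (by omega : (0 : ℤ) ≤ (j : ℤ) + t3)] at h13
      have h14 := (abs_le.mp h13).1
      rcases Nat.lt_or_ge k1 2 with hk | hk
      · -- `k1 = 1`
        have hk' : k1 = 1 := by omega
        subst hk'
        have hr11 : r1 = 1 := by
          have h4 : (aeval (-1 : ℂ) g1 : ℂ) = 0 := by
            rw [hh]
            apply ev_root
            rw [hs1]
            push_cast
            ring
          rw [hg1, map_add, map_mul, map_pow, aeval_X, aCc, map_one, pow_one] at h4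
          have h5 : ((1 - r1 : ℤ) : ℂ) = 0 := by push_cast; linear_combination h4
          have h6 : 1 - r1 = 0 := by exact_mod_cast h5
          omega
        rw [hr11] at hA hB
        push_cast at hA hB
        rw [pow_one, one_mul] at hA hB
        rcases hcas with ⟨h4, h5⟩ | ⟨h4, h5⟩
        · rw [h5, sub_zero, abs_of_nonneg (by omega : (0 : ℤ) ≤ (j : ℤ))] at h33
          have h6 : (1 : ℤ) - j ≤ r3 := by
            have := (abs_le.mp h33).2
            omega
          have h7 : 1 - (j : ℝ) ≤ r3 := by exact_mod_cast h6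
          rw [evp1, h4] at hA
          push_cast at hA
          rw [zero_mul, add_zero] at hA
          exact bin_d4 hx0 hx3 hJ (hxk k3 hk3).1 (hxk k3 hk3).2 h7 hA
        · subst h4
          have h6 : |1 - (r3 : ℝ)| ≤ |(j : ℝ) - t1| := by
            rw [h5]
            exact_mod_cast h33
          rw [evp1, pow_one] at hA hB
          exact bin_d3 hx0 hxy hJ hJy h6 hA hB
      · rcases hcas with ⟨h4, h5⟩ | ⟨h4, h5⟩
        · rw [h5, sub_zero, abs_of_nonneg (by omega : (0 : ℤ) ≤ (j : ℤ))] at h33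
          have h6 : (1 : ℤ) - j ≤ r3 := by
            have := (abs_le.mp h33).2
            omega
          have h7 : 1 - (j : ℝ) ≤ r3 := by exact_mod_cast h6
          rw [evp1, h4] at hA
          push_cast at hA
          rw [zero_mul, add_zero] at hA
          exact bin_d2 hx0 hx3 hJ (hxk k1 hk1).1 (hxk2 k1 hk) (hxk k3 hk3).1 (hxk k3 hk3).2
            hr1' h7 hA
        · subst h4
          have h6 : -1 - (j : ℤ) - t1 ≤ r3 := by omega
          have h7 : -1 - (j : ℝ) - t1 ≤ r3 := by exact_mod_cast h6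
          have ht1' : -(j : ℝ) ≤ t1 := by exact_mod_cast ht1
          rw [evp1] at hA
          exact bin_d1 hx0 hx3 hJ (hxk k1 hk1).1 (hxk2 k1 hk) ht1' hr1' h7 hA

/-- (OC_V1). -/
theorem v1 : OC.W1S := by
  intro q f E γ cc p g1 g3 j n s x y H f0 eE E0 γ0 hn hs hc hE hz hb1 hb3 h1 h3 hC1 hC3
  obtain ⟨hA, hB⟩ := two_pts H eE hn hs hc hE h1 h3
  have hj : (2 : ℝ) ≤ j := by exact_mod_cast H.j2
  have hx0 := H.x0
  have hy0 := H.y0
  have hxy := H.xy
  have hx := H.hx
  have hy := H.hy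
  have hJ : (j : ℝ) * x = 1 - x := by linarith
  have hJy : (j : ℝ) * y = 1 := by linarith
  obtain ⟨h, hh⟩ := g1_root (g1 := g1) (f := f) (n := n) (s := s) hc h1
  obtain ⟨z0, hz1, hz2, hz3⟩ := root_ex (n := n) hn hs
  have hg1ne : g1 ≠ 1 := by
    intro h4
    have h5 : (aeval z0 g1 : ℂ) = 0 := by rw [hh]; exact ev_root hz2
    rw [h4, map_one] at h5
    exact one_ne_zero h5
  have bin : ∀ (k1 k3 : ℕ) (t1 t3 r1 r3 : ℤ), 1 ≤ k1 → 1 ≤ k3 →
      p = C (j : ℤ) + C t1 * X ^ k1 → g1 = 1 + C r1 * X ^ k1 →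
      p = C (j : ℤ) + C t3 * X ^ k3 → g3 = 1 + C r3 * X ^ k3 → False :=
    fun k1 k3 t1 t3 r1 r3 hk1 hk3 hp1 hg1 hp3 hg3 =>
      v1_bin H hn hs hc h1 h3 hz hb1 hb3 hA hB hk1 hk3 hp1 hg1 hp3 hg3
  rcases cn_cases hC1 with ⟨k1, t1, r1, hk1, hp1, hg1⟩ | ⟨sg, F, hs1, hs2, F0, Fk, hp1, hg1⟩
  · rcases cn_cases hC3 with ⟨k3, t3, r3, hk3, hp3, hg3⟩ | ⟨sg', F', hs1', hs2', F0', Fk', hp3, hg3⟩
    · exact bin k1 k3 t1 t3 r1 r3 hk1 hk3 hp1 hg1 hp3 hg3
    · obtain ⟨u, hu⟩ := uf_mono (j := j) (k := k1) (t := t1) (F := F') (sg := sg')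
        (by rw [← hp1, ← hp3]) hs1'
      rcases hg3 with hg3 | hg3
      · exact bin k1 k1 t1 t1 r1 u hk1 hk1 hp1 hg1 hp1 (by rw [hg3, hu])
      · exact bin k1 k1 t1 t1 r1 0 hk1 hk1 hp1 hg1 hp1 (by rw [hg3]; simp)
  · have hg1' : g1 = 1 + F := by
      rcases hg1 with hg1 | hg1
      · exact hg1
      · exact absurd hg1 hg1ne
    rcases cn_cases hC3 with ⟨k3, t3, r3, hk3, hp3, hg3⟩ | ⟨sg', F', hs1', hs2', F0', Fk', hp3, hg3⟩
    · obtain ⟨u, hu⟩ := uf_mono (j := j) (k := k3) (t := t3) (F := F) (sg := sg)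
        (by rw [← hp1, ← hp3]) hs1
      exact bin k3 k3 t3 t3 u r3 hk3 hk3 hp3 (by rw [hg1', hu]) hp3 hg3
    · have hFF : F = F' := uf_eq (j := j) hs1 hs1' Fk Fk' (by rw [← hp1, ← hp3])
      have hj3 : (3 : ℝ) ≤ j := by exact_mod_cast (by omega : 3 ≤ j)
      have hs1r : (1 : ℝ) ≤ sg := by exact_mod_cast hs1
      have hs2r : (sg : ℝ) + 2 ≤ j := by exact_mod_cast hs2
      have hx4 : x ≤ 1 / 4 := by nlinarith
      have hy3 : y ≤ 1 / 3 := by nlinarith
      have hsx : (sg : ℝ) * x ≤ 1 - 3 * x := by nlinarith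
      have hsy : (sg : ℝ) * y ≤ 1 - 2 * y := by nlinarith
      have hFx := abs_le.mp (fx_le F0 Fk hx0 (by linarith))
      have evp : ∀ v : ℝ, (aeval v p : ℝ) = j + sg * aeval v F := by
        intro v
        rw [hp1, map_add, map_mul, aC, aC, Int.cast_natCast, Int.cast_natCast]
      have evg : ∀ v : ℝ, (aeval v g1 : ℝ) = 1 + aeval v F := by
        intro v
        rw [hg1', map_add, map_one]
      have ex : (j : ℝ) + sg * aeval x F = ((1 - x) + sg * x * aeval x F) / x := by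
        rw [← hJ]
        field_simp
      have ey : (j : ℝ) + sg * aeval y F = (1 + sg * y * aeval y F) / y := by
        rw [← hJy]
        field_simp
      rcases hg3 with hg3 | hg3
      · -- `g3 = 1 + F`
        have evg3 : ∀ v : ℝ, (aeval v g3 : ℝ) = 1 + aeval v F := by
          intro v
          rw [hg3, ← hFF, map_add, map_one]
        by_cases hcase : 2 ≤ n ∨ s = -1
        · rw [evp, evg, evg3, ex] at hA
          have hw : 1 - x ^ 2 ≤ 1 - (s : ℝ) * x ^ n := by
            have hxn0 : 0 < x ^ n := pow_pos hx0 n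
            rcases hcase with h4 | h4
            · have hxn : x ^ n ≤ x ^ 2 := pow_le_pow_of_le_one hx0.le (by linarith) h4
              rcases hs with rfl | rfl
              · push_cast; linarith
              · push_cast; nlinarith
            · rw [h4]
              push_cast
              nlinarith
          exact uf_a hx0 hx4 hs1r hsx hFx.2 hFx.1 hw hA
        · push Not at hcase
          have hn1 : n = 1 := by omega
          have hs1' : s = 1 := by
            rcases hs with h4 | h4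
            · exact h4
            · exact absurd h4 hcase.2
          have ew : ∀ v : ℝ, (1 : ℝ) - ((1 : ℤ) : ℝ) * v ^ 1 = 1 - v := by
            intro v; push_cast; ring
          rw [evp, evg, evg3, ex, hn1, hs1', ew] at hA
          rw [evp, evg, evg3, ey, hn1, hs1', ew] at hB
          have h4 := uf_b hx0 hx4 hsx hA
          have h5 := uf_c hy0 hy3 hsy hB
          have h6 : (aeval y (-F) : ℝ) < 0 :=
            sgn_same (Nat.lt_succ_self _) (fun k => by rw [coeff_neg, abs_neg]; exact Fk k) hx0 hxy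
              (by linarith) (by rw [map_neg]; linarith)
          rw [map_neg] at h6
          linarith
      · -- `g3 = 1`
        rw [hg3, mul_one] at h3
        have hγ : γ ≠ 0 := by
          rintro rfl
          rw [coeff_zero] at γ0
          exact zero_ne_one γ0
        have hs1' : s = -1 := by
          rcases hs with h4 | h4
          · exfalso
            have h5 : (aeval (1 : ℂ) cc : ℂ) = 0 := by
              rw [h3]
              apply ev_root
              rw [h4]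
              simp
            rcases hc with rfl | rfl
            · simp at h5
            · rw [map_add, map_one, aeval_X] at h5
              norm_num at h5
          · exact h4
        have hn1 : n = 1 := by
          have hs0 : s ≠ 0 := by rw [hs1']; norm_num
          have h6 : (1 - C s * X ^ n : ℤ[X]).natDegree = n := by
            have h7 : (1 - C s * X ^ n : ℤ[X]) = C (-s) * X ^ n + C 1 := by
              rw [map_one, map_neg]; ring
            rw [h7, natDegree_add_C, natDegree_C_mul_X_pow n (-s) (by omega)]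
          have h8 : (1 - C s * X ^ n : ℤ[X]) ≠ 0 := by
            intro h9
            rw [h9, natDegree_zero] at h6
            omega
          have h9 : cc.natDegree = n + γ.natDegree := by rw [h3, natDegree_mul h8 hγ, h6]
          have h10 : cc.natDegree ≤ 1 := by
            rcases hc with rfl | rfl
            · simp
            · have h11 : (1 + X : ℤ[X]) = C 1 * X + C 1 := by rw [map_one]; ring
              rw [h11]
              exact natDegree_linear_le
          omega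
        have ew : ∀ v : ℝ, (1 : ℝ) - ((-1 : ℤ) : ℝ) * v ^ 1 = 1 + v := by
          intro v; push_cast; ring
        rw [evp, evg, hg3, map_one, ex, hn1, hs1', ew] at hA
        exact uf_d hx0 hx4 hs1r hsx hFx.2 hA

end Pool.Agent.B5.KO.H95
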