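import Pool.Agent.Lib.MP_b5021c_nt.KO.H95.V1

/-!
# MP_b5021c_nt, all `θ`, K ODD, (O4), cycles of length at least five: row V2 of IfaceOC.lean
(helper95)

`r = f + γ`, `g1 + g3 = r (1 - z)² (1 + z)`.
-/

namespace Pool.Agent.B5.KO.H95

open Polynomial
open Pool.Agent.B5
open Pool.Agent.B5.O4X

/-- `k x^k ≤ 2 x²`. -/
theorem k_pow {x : ℝ} (hx0 : 0 < x) (hx3 : x ≤ 1 / 3) : ∀ k : ℕ, 2 ≤ k →
    (k : ℝ) * x ^ k ≤ 2 * x ^ 2 := by
  intro k hk
  induction k, hk using Nat.le_induction with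
  | base => norm_num
  | succ k hk ih =>
    have hk' : (2 : ℝ) ≤ k := by exact_mod_cast hk
    have h1 : 0 < x ^ k := pow_pos hx0 k
    have h2 : ((k + 1 : ℕ) : ℝ) * x ^ (k + 1) = ((k : ℝ) + 1) * x * x ^ k := by
      rw [pow_succ]; push_cast; ring
    rw [h2]
    refine le_trans ?_ ih
    apply mul_le_mul_of_nonneg_right _ h1.le
    nlinarith

/-- The relations for `2 + a z^k1 + b z^k3 = r (1 - z)² (1 + z)`. -/
theorem dbl_rel {a b : ℤ} {k1 k3 : ℕ} {r : ℤ[X]}
    (h : (2 + C a * X ^ k1 + C b * X ^ k3 : ℤ[X]) = r * ((1 - X) ^ 2 * (1 + X))) :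
    2 + a + b = 0 ∧ (k1 : ℤ) * a + k3 * b = 0 ∧ 2 + a * (-1) ^ k1 + b * (-1) ^ k3 = 0 := by
  refine ⟨?_, ?_, ?_⟩
  · have h1 := congrArg (eval 1) h
    simpa using h1
  · have h1 := congrArg (fun P => eval 1 (derivative P)) h
    have h2 : derivative (2 : ℤ[X]) = 0 := by
      have : (2 : ℤ[X]) = C 2 := by simp
      rw [this, derivative_C]
    simp only [derivative_add, derivative_C, derivative_mul, derivative_X_pow, derivative_pow,
      derivative_sub, derivative_one, derivative_X, eval_add, eval_mul, eval_C, eval_X, eval_pow,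
      one_pow, eval_sub, eval_one, h2] at h1
    simp at h1
    linarith
  · have h1 := congrArg (eval (-1)) h
    simpa using h1

/-- The real inequality: `f(x) < 1`. -/
theorem v2_real {x fx r a b X1 X3 K1 K3 : ℝ} (hx0 : 0 < x) (hx3 : x ≤ 1 / 3)
    (hX1 : 0 < X1) (hX3 : 0 < X3) (hf : fx = 1 + a * X1 - x ^ 3 * r)
    (hr : r * ((1 - x) ^ 2 * (1 + x)) = 2 + a * X1 + b * X3)
    (h12 : X1 ≤ x ^ 2) (h32 : X3 ≤ x ^ 2) (hK1 : K1 * X1 ≤ 2 * x ^ 2) (hK3 : K3 * X3 ≤ 2 * x ^ 2)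
    (hcase : (0 ≤ a ∧ a ≤ K3 ∧ b = -2 - a ∧ X1 ≤ x ^ 2 * X3) ∨
      (0 ≤ b ∧ b ≤ K1 ∧ a = -2 - b)) : fx < 1 := by
  have hD : (1 - x) ^ 2 * (1 + x) ≤ 1 := by nlinarith [mul_pos hx0 hx0]
  have hD0 : 0 < (1 - x) ^ 2 * (1 + x) := by
    apply mul_pos _ (by linarith)
    have : 0 < 1 - x := by linarith
    positivity
  have hx9 : x ^ 2 ≤ 1 / 9 := by nlinarith
  rcases hcase with ⟨ha0, ha, hb, h13⟩ | ⟨hb0, hb, ha⟩
  · have h1 : a * X3 ≤ 2 * x ^ 2 := le_trans (mul_le_mul_of_nonneg_right ha hX3.le) hK3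
    have h2 : a * X1 ≤ x ^ 2 * (2 * x ^ 2) := by
      calc a * X1 ≤ a * (x ^ 2 * X3) := mul_le_mul_of_nonneg_left h13 ha0
        _ = x ^ 2 * (a * X3) := by ring
        _ ≤ x ^ 2 * (2 * x ^ 2) := mul_le_mul_of_nonneg_left h1 (by positivity)
    have h3 : 2 - 4 * x ^ 2 ≤ r * ((1 - x) ^ 2 * (1 + x)) := by
      rw [hr, hb]
      have : 0 ≤ a * X1 := mul_nonneg ha0 hX1.le
      nlinarith
    have hr0 : 0 < r := by
      by_contra hcon
      push Not at hcon
      nlinarith [mul_nonneg (by linarith : (0 : ℝ) ≤ -r) hD0.le]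
    have h4 : 2 - 4 * x ^ 2 ≤ r := le_trans h3 (by
      calc r * ((1 - x) ^ 2 * (1 + x)) ≤ r * 1 := mul_le_mul_of_nonneg_left hD hr0.le
        _ = r := mul_one r)
    have h5 : x ^ 3 * (2 - 4 * x ^ 2) ≤ x ^ 3 * r := mul_le_mul_of_nonneg_left h4 (by positivity)
    have h6 : 0 < x ^ 3 * (2 - 2 * x - 4 * x ^ 2) := mul_pos (by positivity) (by nlinarith)
    rw [hf]
    nlinarith
  · have h1 : b * X1 ≤ 2 * x ^ 2 := le_trans (mul_le_mul_of_nonneg_right hb hX1.le) hK1
    have h3 : 2 - 4 * x ^ 2 ≤ r * ((1 - x) ^ 2 * (1 + x)) := by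
      rw [hr, ha]
      have : 0 ≤ b * X3 := mul_nonneg hb0 hX3.le
      nlinarith
    have hr0 : 0 < r := by
      by_contra hcon
      push Not at hcon
      nlinarith [mul_nonneg (by linarith : (0 : ℝ) ≤ -r) hD0.le]
    have h5 : 0 < x ^ 3 * r := mul_pos (by positivity) hr0
    have h6 : a * X1 ≤ 0 := by
      rw [ha]
      exact mul_nonpos_of_nonpos_of_nonneg (by linarith) hX1.le
    rw [hf]
    linarith

/-- BOTH BINOMIAL. -/
theorem v2_bin {q f E γ g1 g3 : ℤ[X]} {j k1 k3 : ℕ} {t1 t3 a b : ℤ} {x y : ℝ}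
    (H : Tp j q f x y) (eE : f - q = X * E)
    (e1 : g1 = f + X ^ 3 * (f + γ)) (e3 : g3 = (1 - X - X ^ 2) * (f + γ) - f)
    (hk1 : 1 ≤ k1) (hk3 : 1 ≤ k3)
    (hp1 : E - (1 + X) * f = C (j : ℤ) + C t1 * X ^ k1) (hg1 : g1 = 1 + C a * X ^ k1)
    (hp3 : E - (1 + X) * f = C (j : ℤ) + C t3 * X ^ k3) (hg3 : g3 = 1 + C b * X ^ k3) :
    False := by
  have hj : (2 : ℝ) ≤ j := by exact_mod_cast H.j2
  have hx0 := H.x0
  have hx := H.hx
  have hx3 : x ≤ 1 / 3 := by nlinarith
  have hsum : (2 + C a * X ^ k1 + C b * X ^ k3 : ℤ[X]) = (f + γ) * ((1 - X) ^ 2 * (1 + X)) := by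
    have h1 : g1 + g3 = (f + γ) * ((1 - X) ^ 2 * (1 + X)) := by rw [e1, e3]; ring
    rw [← h1, hg1, hg3]
    ring
  obtain ⟨r1, r2, r3⟩ := dbl_rel hsum
  have hne : k1 ≠ k3 := by
    rintro rfl
    have h1 : (k1 : ℤ) * (a + b) = 0 := by linarith
    rcases mul_eq_zero.mp h1 with h2 | h2
    · omega
    · omega
  rcases mono_eq (j := j) (k := k1) (k' := k3) (t := t1) (t' := t3) (by rw [← hp1, ← hp3]) with
    ⟨ht1, -⟩ | ⟨h1, -⟩
  swap
  · exact hne h1
  -- parity
  have hpar : Even k1 ∧ Even k3 := by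
    rcases Nat.even_or_odd k1 with h1 | h1 <;> rcases Nat.even_or_odd k3 with h3 | h3
    · exact ⟨h1, h3⟩
    · exfalso
      rw [h1.neg_one_pow, h3.neg_one_pow] at r3
      have hb : b = 0 := by linarith
      rw [hb, mul_zero, add_zero] at r2
      rcases mul_eq_zero.mp r2 with h4 | h4
      · omega
      · omega
    · exfalso
      rw [h1.neg_one_pow, h3.neg_one_pow] at r3
      have ha : a = 0 := by linarith
      rw [ha, mul_zero, zero_add] at r2
      rcases mul_eq_zero.mp r2 with h4 | h4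
      · omega
      · omega
    · exfalso
      rw [h1.neg_one_pow, h3.neg_one_pow] at r3
      omega
  obtain ⟨⟨m1, hm1⟩, ⟨m3, hm3⟩⟩ := hpar
  have hk1' : 2 ≤ k1 := by omega
  have hk3' : 2 ≤ k3 := by omega
  -- the values at `x`
  have hqx : 0 < (1 - x - x ^ 2) * (aeval x f : ℝ) - (1 - x) := by
    have h1 := H.I
    have h2 : q = f - X * (C (j : ℤ) + (1 + X) * f) := by
      have h3 : E = C (j : ℤ) + (1 + X) * f := by
        rw [ht1] at hp1
        have h4 : E = (E - (1 + X) * f) + (1 + X) * f := by ring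
        rw [h4, hp1, map_zero, zero_mul, add_zero]
      rw [← h3, ← eE]
      ring
    rw [h2] at h1
    simp only [map_sub, map_mul, map_add, map_one, aeval_X, aC, Int.cast_natCast] at h1
    have h3 : (aeval x f : ℝ) - x * (j + (1 + x) * aeval x f) =
        (1 - x - x ^ 2) * (aeval x f : ℝ) - j * x := by ring
    rw [h3] at h1
    have h4 : (j : ℝ) * x = 1 - x := by linarith
    rw [h4] at h1
    exact h1
  have hfx : (aeval x f : ℝ) = 1 + a * x ^ k1 - x ^ 3 * aeval x (f + γ) := by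
    have h1 : f = g1 - X ^ 3 * (f + γ) := by rw [e1]; ring
    have h2 := congrArg (fun P => (aeval x P : ℝ)) h1
    have h3 : (aeval x (g1 - X ^ 3 * (f + γ)) : ℝ) = 1 + a * x ^ k1 - x ^ 3 * aeval x (f + γ) := by
      rw [map_sub, map_mul, map_pow, aeval_X, hg1, map_add, map_one, map_mul, map_pow, aeval_X, aC]
    rw [← h3]
    exact h2
  have hrx : (aeval x (f + γ) : ℝ) * ((1 - x) ^ 2 * (1 + x)) = 2 + a * x ^ k1 + b * x ^ k3 := by
    have h1 := congrArg (fun P => (aeval x P : ℝ)) hsum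
    have h2 : (aeval x (2 : ℤ[X]) : ℝ) = 2 := by
      have : (2 : ℤ[X]) = C 2 := by simp
      rw [this, aC]
      norm_num
    simp only [map_add (aeval x) (2 + C a * X ^ k1) _, map_add (aeval x) 2 _, map_mul, map_pow,
      map_sub, map_one, aeval_X, aC, h2] at h1
    rw [map_add (aeval x) (1 : ℤ[X]) X, map_one, aeval_X] at h1
    linarith
  have hxk2 : ∀ k : ℕ, 2 ≤ k → x ^ k ≤ x ^ 2 := fun k hk =>
    pow_le_pow_of_le_one hx0.le (by linarith) hk
  have hlt : (aeval x f : ℝ) < 1 := by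
    refine v2_real (K1 := k1) (K3 := k3) hx0 hx3 (pow_pos hx0 k1) (pow_pos hx0 k3) hfx hrx
      (hxk2 k1 hk1') (hxk2 k3 hk3') (k_pow hx0 hx3 k1 hk1') (k_pow hx0 hx3 k3 hk3') ?_
    rcases Nat.lt_or_ge k3 k1 with h1 | h1
    · left
      have h2 : k3 + 2 ≤ k1 := by omega
      have h3 : (a : ℤ) * (k1 - k3) = 2 * k3 := by
        have : b = -2 - a := by linarith
        rw [this] at r2
        linarith
      have h4 : (2 : ℤ) ≤ (k1 : ℤ) - k3 := by omega
      have ha0 : 0 < a := by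
        by_contra hcon
        push Not at hcon
        nlinarith
      have ha : a ≤ k3 := by nlinarith
      refine ⟨by exact_mod_cast ha0.le, by exact_mod_cast ha, ?_, ?_⟩
      · have : b = -2 - a := by linarith
        rw [this]
        push_cast
        ring
      · rw [← pow_add]
        exact pow_le_pow_of_le_one hx0.le (by linarith) (by omega)
    · right
      have h2 : k1 + 2 ≤ k3 := by omega
      have h3 : (b : ℤ) * (k3 - k1) = 2 * k1 := by
        have : a = -2 - b := by linarith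
        rw [this] at r2
        linarith
      have h4 : (2 : ℤ) ≤ (k3 : ℤ) - k1 := by omega
      have hb0 : 0 < b := by
        by_contra hcon
        push Not at hcon
        nlinarith
      have hb : b ≤ k1 := by nlinarith
      refine ⟨by exact_mod_cast hb0.le, by exact_mod_cast hb, ?_⟩
      have : a = -2 - b := by linarith
      rw [this]
      push_cast
      ring
  have h1 : 0 < 1 - x - x ^ 2 := by nlinarith
  nlinarith

/-- The coefficients of `g` are at most one. -/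
theorem cf_le {F g : ℤ[X]} (Fk : ∀ k, |F.coeff k| ≤ 1) (hg : g = 1 + F ∨ g = 1) {k : ℕ}
    (hk : 1 ≤ k) : |g.coeff k| ≤ 1 := by
  rcases hg with hg | hg
  · rw [hg, coeff_add, coeff_one, if_neg (by omega), zero_add]
    exact Fk k
  · rw [hg, coeff_one, if_neg (by omega)]
    norm_num

/-- (OC_V2). -/
theorem v2 : OC.W2S := by
  intro q f E γ p g1 g3 gm j x y H f0 eE E0 γ0 hEz hcu hE e1 e3 em hC1 hC3 hCm
  rcases cn_cases hC1 with ⟨k1, t1, r1, hk1, hp1, hg1⟩ | ⟨sg, F, hs1, hs2, F0, Fk, hp1, hg1⟩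
  · exfalso
    rcases cn_cases hC3 with ⟨k3, t3, r3, hk3, hp3, hg3⟩ | ⟨sg', F', hs1', hs2', F0', Fk', hp3, hg3⟩
    · exact v2_bin H eE e1 e3 hk1 hk3 hp1 hg1 hp3 hg3
    · obtain ⟨u, hu⟩ := uf_mono (j := j) (k := k1) (t := t1) (F := F') (sg := sg')
        (by rw [← hp1, ← hp3]) hs1'
      rcases hg3 with hg3 | hg3
      · exact v2_bin H eE e1 e3 hk1 hk1 hp1 hg1 hp1 (b := u) (by rw [hg3, hu])
      · exact v2_bin H eE e1 e3 hk1 hk1 hp1 hg1 hp1 (b := 0) (by rw [hg3]; simp)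
  · rcases cn_cases hC3 with ⟨k3, t3, r3, hk3, hp3, hg3⟩ | ⟨sg', F', hs1', hs2', F0', Fk', hp3, hg3⟩
    · exfalso
      obtain ⟨u, hu⟩ := uf_mono (j := j) (k := k3) (t := t3) (F := F) (sg := sg)
        (by rw [← hp1, ← hp3]) hs1
      rcases hg1 with hg1 | hg1
      · exact v2_bin H eE e1 e3 hk3 hk3 hp3 (a := u) (by rw [hg1, hu]) hp3 hg3
      · exact v2_bin H eE e1 e3 hk3 hk3 hp3 (a := 0) (by rw [hg1]; simp) hp3 hg3
    · have hm1 : (aeval (-1 : ℂ) gm : ℂ) = 0 := by
        rw [em, map_mul, map_add, map_one, aeval_X]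
        simp
      have hgm2 : |gm.coeff 2| ≤ 1 := by
        rcases cn_cases hCm with ⟨k, t, rr, hk, hp, hg⟩ | ⟨s', G, h1, h2, G0, Gk, hp, hg⟩
        · have h1 : rr = 1 ∨ rr = -1 := by
            apply r_unit (k := k) (z := -1) (by simp)
            rw [← hg]
            exact hm1
          rw [hg, coeff_add, coeff_one, if_neg (by norm_num), zero_add, coeff_C_mul_X_pow]
          split_ifs
          · rcases h1 with h1 | h1 <;> rw [h1] <;> norm_num
          · norm_num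
        · exact cf_le Gk hg (by norm_num)
      have h3 := cf_le Fk' hg3 (k := 1) (by norm_num)
      have h4 := cf_le Fk hg1 (k := 2) (by norm_num)
      -- coefficients
      have c3 : g3.coeff 1 = γ.coeff 1 - 2 := by
        have e : g3 = (f + γ) - X * (f + γ) - X * (X * (f + γ)) - f := by rw [e3]; ring
        rw [e]
        simp only [coeff_sub, coeff_add, coeff_X_mul, coeff_X_mul_zero, mul_coeff_zero,
          coeff_X_zero, f0, γ0]
        ring
      have c1 : g1.coeff 2 = f.coeff 2 := by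
        have e : g1 = f + X ^ 3 * (f + γ) := e1
        rw [e, coeff_add, coeff_X_pow_mul', if_neg (by norm_num), add_zero]
      have cm : gm.coeff 2 = f.coeff 2 - γ.coeff 1 - 2 := by
        have e : gm = f - X * (f + γ) + X * f - X * (X * (f + γ)) := by rw [em]; ring
        rw [e]
        simp only [coeff_sub, coeff_add, coeff_X_mul, coeff_X_mul_zero, mul_coeff_zero,
          coeff_X_zero, f0, γ0]
        ring
      rw [c3] at h3
      rw [c1] at h4
      rw [cm] at hgm2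
      have h5 := abs_le.mp h3
      have h6 := abs_le.mp h4
      have h7 := abs_le.mp hgm2
      omega

end Pool.Agent.B5.KO.H95
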