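import Pool.Agent.Lib.MP_b5021c_nt.IfaceBE

/-!
# PURE BETA, the count (BE_CNT): one variable (helper95)
-/

namespace Pool.Agent.B5.KO.H95

open scoped LaurentPolynomial
open Polynomial

/-- The claim for the rank `r'` gives the two inequalities for every smaller rank. -/
theorem bnk_mono {θ : ℝ} (h1 : 1 ≤ θ) {r r' : ℕ} (hr : r ≤ r')
    (hB : (Even r' → (r' : ℝ) ≤ 2 * (θ - 1 / θ)) ∧ (Odd r' → (r' : ℝ) + 1 ≤ 2 * θ)) :
    (Even r → (r : ℝ) ≤ 2 * (θ - θ⁻¹)) ∧ (Odd r → (r : ℝ) + 1 ≤ 2 * θ) := by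
  have h0 : 0 < θ := by linarith
  have hi : θ⁻¹ ≤ 1 := inv_le_one_of_one_le₀ h1
  have hi0 : 0 < θ⁻¹ := inv_pos.mpr h0
  rw [one_div] at hB
  have hrr : (r : ℝ) ≤ r' := by exact_mod_cast hr
  refine ⟨fun he => ?_, fun ho => ?_⟩
  · rcases Nat.even_or_odd r' with h2 | h2
    · have h3 := hB.1 h2
      linarith
    · have h3 := hB.2 h2
      have h4 : r + 1 ≤ r' := by
        rcases Nat.lt_or_ge r r' with h5 | h5
        · exact h5
        · exfalso
          have h6 : r = r' := le_antisymm hr h5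
          subst h6
          exact (Nat.not_even_iff_odd.mpr h2) he
      have h5 : (r : ℝ) + 1 ≤ r' := by exact_mod_cast h4
      linarith
  · rcases Nat.even_or_odd r' with h2 | h2
    · have h3 := hB.1 h2
      have h4 : r + 1 ≤ r' := by
        rcases Nat.lt_or_ge r r' with h5 | h5
        · exact h5
        · exfalso
          have h6 : r = r' := le_antisymm hr h5
          subst h6
          exact (Nat.not_even_iff_odd.mpr ho) h2
      have h5 : (r : ℝ) + 1 ≤ r' := by exact_mod_cast h4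
      linarith
    · have h3 := hB.2 h2
      linarith

/-- The zeros of a polynomial of type B. -/
theorem roots_tb {V : ℤ[X]} {b : ℝ} (hb0 : 0 < b) (hb1 : b < 1) {t : ℝ[X]}
    (hV : V.map (Int.castRingHom ℝ) = (X - C b) * t)
    (ht : ∀ z : ℂ, ‖z‖ < 1 → (aeval z t : ℂ) ≠ 0) :
    (V.map (Coef.emb : ℤ →+* ℂ)).roots.filter (fun x => ‖x‖ < 1) = {(b : ℂ)} := by
  have h1 : V.map (Coef.emb : ℤ →+* ℂ) = (X - C (b : ℂ)) * t.map Complex.ofRealHom := by
    have h2 : (V.map (Int.castRingHom ℝ)).map Complex.ofRealHom =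
        ((X - C b) * t).map Complex.ofRealHom := by rw [hV]
    rw [Polynomial.map_map, Polynomial.map_mul, Polynomial.map_sub, map_X, map_C] at h2
    have h3 : (Complex.ofRealHom).comp (Int.castRingHom ℝ) = Int.castRingHom ℂ :=
      RingHom.ext_int _ _
    rw [h3] at h2
    exact h2
  have hev : ∀ z : ℂ, aeval z t = (t.map Complex.ofRealHom).eval z := fun z => by
    rw [eval_map, aeval_def]; rfl
  have hs0 : t.map Complex.ofRealHom ≠ 0 := by
    intro h0
    apply ht 0 (by simp)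
    rw [hev, h0, eval_zero]
  have hX : (X - C (b : ℂ)) ≠ 0 := X_sub_C_ne_zero _
  rw [h1, roots_mul (mul_ne_zero hX hs0), Multiset.filter_add, roots_X_sub_C]
  have h4 : (t.map Complex.ofRealHom).roots.filter (fun x => ‖x‖ < 1) = 0 := by
    rw [Multiset.filter_eq_nil]
    intro z hz hz1
    have h5 : (t.map Complex.ofRealHom).eval z = 0 := (mem_roots hs0).mp hz
    apply ht z hz1
    rw [hev, h5]
  rw [h4, add_zero, Multiset.filter_singleton, if_pos]
  rw [Complex.norm_real, Real.norm_eq_abs, abs_of_pos hb0]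
  exact hb1

/-- Type B is of class `P(1 / b)`. -/
theorem classP_tb {m : RO ℤ} {V : ℤ[X]} {a b : ℝ} (ha : 0 < a) (h : TB m V a b) :
    ClassP b⁻¹ m := by
  obtain ⟨hm, h0, hab, hb1, t, hV, ht⟩ := h
  have hb0 : 0 < b := lt_trans ha hab
  rw [hm]
  refine ⟨(one_lt_inv₀ hb0).mpr hb1, 0, V, ?_, ?_, (b : ℂ), ?_, roots_tb hb0 hb1 hV ht⟩
  · rw [LaurentPolynomial.T_zero, one_mul]
  · rw [h0, map_one, norm_one]
  · rw [inv_inv, Complex.norm_real, Real.norm_eq_abs, abs_of_pos hb0]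

/-- The final inequalities for type B: a factor of class `P(1 / b)` and rank `r' ≥ r`. -/
theorem tb_end {m : RO ℤ} {V : ℤ[X]} {a b : ℝ} (ha : 0 < a) (h : TB m V a b) {r r' : ℕ}
    (hr : r ≤ r') (hB : (Even r' → (r' : ℝ) ≤ 2 * (b⁻¹ - 1 / b⁻¹)) ∧
      (Odd r' → (r' : ℝ) + 1 ≤ 2 * b⁻¹)) :
    (Even r → (r : ℝ) ≤ 2 * (b⁻¹ - b)) ∧ (Odd r → (r : ℝ) + 1 ≤ 2 * b⁻¹) := by
  have h1 := bnk_mono (classP_tb ha h).1.le hr hB
  rw [inv_inv] at h1
  exact h1

/-! ## Factors of the constant coefficient -/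

/-- The level of class `V` over the integers. -/
theorem v_nat {N : ℝ} {Q : RO ℤ} (hV : ClassV N Q) : ∃ m : ℕ, 1 ≤ m ∧ N = m := by
  obtain ⟨h1, n, g, hg, hg0, hz⟩ := hV
  have h2 : N = ((g.coeff 0).natAbs : ℕ) := by
    rw [← hg0]
    change ‖((g.coeff 0 : ℤ) : ℂ)‖ = _
    rw [Complex.norm_intCast, Nat.cast_natAbs, Int.cast_abs]
  refine ⟨(g.coeff 0).natAbs, ?_, h2⟩
  rw [h2] at h1
  exact_mod_cast h1

/-- `Σ ≤ Π` for integers at least two. -/
theorem sum_prod {ι : Type} [DecidableEq ι] (s : Finset ι) (x : ι → ℕ) (hx : ∀ i ∈ s, 2 ≤ x i) :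
    ∑ i ∈ s, x i ≤ ∏ i ∈ s, x i ∧ (s.Nonempty → 2 ≤ ∏ i ∈ s, x i) := by
  induction s using Finset.induction_on with
  | empty => simp
  | insert i s hi ih =>
    rw [Finset.sum_insert hi, Finset.prod_insert hi]
    have h1 := hx i (Finset.mem_insert_self _ _)
    rcases s.eq_empty_or_nonempty with h2 | h2
    · subst h2
      simp only [Finset.sum_empty, Finset.prod_empty]
      omega
    · obtain ⟨h3, h4⟩ := ih (fun k hk => hx k (Finset.mem_insert_of_mem hk))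
      have h5 := h4 h2
      constructor
      · nlinarith
      · intro _
        nlinarith

/-- All factors of an element of class `V` are of class `V`. -/
theorem v_fac (hE1 : E1S) {ι : Type} [DecidableEq ι] (s : Finset ι) (x : ι → RO ℤ) :
    ∀ (c : RO ℤ) (N : ℝ), ClassV N (c * ∏ i ∈ s, x i) → ∃ (k : ι → ℕ) (k0 : ℕ), 1 ≤ k0 ∧
      N = k0 * ∏ i ∈ s, (k i : ℝ) ∧ ∀ i ∈ s, ClassV (k i) (x i) ∧ 1 ≤ k i := by
  obtain ⟨e1, -⟩ := hE1 ℤ
  induction s using Finset.induction_on with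
  | empty =>
    intro c N h
    obtain ⟨m, h1, h2⟩ := v_nat h
    exact ⟨fun _ => 1, m, h1, by simp [h2], fun i hi => absurd hi (Finset.notMem_empty i)⟩
  | insert i s hi ih =>
    intro c N h
    rw [Finset.prod_insert hi, mul_left_comm] at h
    obtain ⟨N1, N2, h1, h2, h3⟩ := e1 _ _ _ h
    obtain ⟨m, hm1, hm2⟩ := v_nat h1
    obtain ⟨k, k0, hk0, hk, hk2⟩ := ih c N2 h2
    refine ⟨Function.update k i m, k0, hk0, ?_, ?_⟩
    · rw [Finset.prod_insert hi, Function.update_self, h3, hm2, hk]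
      have h4 : ∏ x ∈ s, ((Function.update k i m x : ℕ) : ℝ) = ∏ x ∈ s, (k x : ℝ) := by
        refine Finset.prod_congr rfl fun y hy => ?_
        rw [Function.update_of_ne]
        rintro rfl
        exact hi hy
      rw [h4]
      ring
    · intro y hy
      rcases Finset.mem_insert.mp hy with hyi | hys
      · rw [hyi, Function.update_self]
        exact ⟨by rw [← hm2]; exact h1, hm1⟩
      · have hne : y ≠ i := fun h9 => hi (h9 ▸ hys)
        rw [Function.update_of_ne hne]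
        exact hk2 y hys

/-- THE COUNT FOR TYPE A: the ranks of the big factors. -/
theorem v_sum (hE1 : E1S) (hMV : MVS) {n : ℕ} {c : RO ℤ} {x : Fin n → RO ℤ} {N : ℝ}
    (hV : ClassV N (c * ∏ i, x i)) (s : Finset (Fin n)) (hs : ∀ i ∈ s, 1 < M (x i))
    (r : Fin n → ℕ) (hr : ∀ i ∈ s, ∀ k : ℕ, 2 ≤ k → ClassV k (x i) → r i ≤ 2 * k) :
    (∑ i ∈ s, (r i : ℝ)) ≤ 2 * N := by
  classical
  obtain ⟨mv1, -⟩ := hMV ℤ
  obtain ⟨k, k0, h0, h1, h2⟩ := v_fac hE1 Finset.univ x c N hV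
  have h3 : ∀ i ∈ s, 2 ≤ k i := by
    intro i hi
    have h4 := (mv1 _ _ (h2 i (Finset.mem_univ i)).1).2
    have h5 := hs i hi
    rw [h4] at h5
    have h6 : 1 < k i := by exact_mod_cast h5
    omega
  obtain ⟨h4, -⟩ := sum_prod s k h3
  have h5 : ∑ i ∈ s, r i ≤ 2 * ∑ i ∈ s, k i := by
    rw [Finset.mul_sum]
    exact Finset.sum_le_sum fun i hi => hr i hi (k i) (h3 i hi) (h2 i (Finset.mem_univ i)).1
  have h6 : ∏ i ∈ s, k i ≤ ∏ i, k i := by
    refine Finset.prod_le_prod_of_subset_of_one_le' (Finset.subset_univ s) fun i _ _ => ?_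
    exact (h2 i (Finset.mem_univ i)).2
  have h7 : ∑ i ∈ s, r i ≤ 2 * (k0 * ∏ i, k i) := by
    have h8 : ∏ i, k i ≤ k0 * ∏ i, k i := Nat.le_mul_of_pos_left _ h0
    omega
  have h8 : ((∑ i ∈ s, r i : ℕ) : ℝ) ≤ ((2 * (k0 * ∏ i, k i) : ℕ) : ℝ) := by exact_mod_cast h7
  push_cast at h8
  rw [← h1] at h8
  exact h8

/-- THE COUNT FOR TYPE B: at most one factor is big, and it is of class `P`. -/
theorem p_split (hE1 : E1S) (hMV : MVS) {n : ℕ} {c : RO ℤ} {x : Fin n → RO ℤ} {th : ℝ}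
    (hP : ClassP th (c * ∏ i, x i)) :
    (∀ i, M (x i) = 1) ∨ ∃ l, ClassP th (x l) ∧ ∀ i, i ≠ l → M (x i) = 1 := by
  classical
  obtain ⟨mv1, -⟩ := hMV ℤ
  obtain ⟨e1, e2⟩ := hE1 ℤ
  -- factors of an element of class `V(1)`
  have hv : ∀ p q : RO ℤ, ClassV 1 (p * q) → M p = 1 := by
    intro p q h
    obtain ⟨N1, N2, h1, h2, h3⟩ := e1 _ _ _ h
    have h4 := h1.1
    have h5 := h2.1
    have h6 : N1 = 1 := by nlinarith
    rw [(mv1 _ _ h1).2, h6]
  by_cases hall : ∀ i, M (x i) = 1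
  · exact Or.inl hall
  right
  push Not at hall
  obtain ⟨l, hl⟩ := hall
  have h1 : c * ∏ i, x i = x l * (c * ∏ i ∈ Finset.univ.erase l, x i) := by
    rw [← Finset.mul_prod_erase Finset.univ x (Finset.mem_univ l)]
    ring
  rw [h1] at hP
  rcases e2 _ _ _ hP with ⟨h2, h3⟩ | ⟨h2, -⟩
  · refine ⟨l, h2, fun i hi => ?_⟩
    have h4 : i ∈ Finset.univ.erase l := Finset.mem_erase.mpr ⟨hi, Finset.mem_univ i⟩
    have h5 : c * ∏ i ∈ Finset.univ.erase l, x i =
        x i * (c * ∏ y ∈ (Finset.univ.erase l).erase i, x y) := by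
      rw [← Finset.mul_prod_erase _ x h4]
      ring
    rw [h5] at h3
    exact hv _ _ h3
  · exact absurd (mv1 _ _ h2).2 hl

end Pool.Agent.B5.KO.H95
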