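import Pool.Agent.Lib.MP_b5021c_nt.KO.H13.Ubx

/-!
# MP_b5021c_nt, all `θ`, K ODD, (O4), cycles of length at least five: row V1 of IfaceOC.lean, the
real inequalities (helper95)

`A`: `x (1 + x) ((1 - s x^n) p(x) + g3(x)) < g1(x)`, `x = 1/(j+1)`;
`B`: `g1(y) ≤ y ((1 - s y^n) p(y) + g3(y))`, `y = 1/j`.
-/

namespace Pool.Agent.B5.KO.H95

open Polynomial
open Pool.Agent.B5
open Pool.Agent.B5.O4X
open Pool.Agent.B5.O4U (abs_aeval_le)

/-- `|F(x)| ≤ x / (1 - x)`. -/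
theorem fx_le {F : ℤ[X]} (F0 : F.coeff 0 = 0) (Fk : ∀ k, |F.coeff k| ≤ 1) {x : ℝ}
    (hx0 : 0 < x) (hx1 : x < 1) : |(1 - x) * (aeval x F : ℝ)| ≤ x := by
  have e1 : F = X * F.divX := by
    conv_lhs => rw [(X_mul_divX_add F).symm, F0, map_zero, add_zero]
  have h1 := abs_aeval_le (G := F.divX) (fun k => by rw [coeff_divX]; exact Fk _) hx0.le hx1
  have h2 : (aeval x F : ℝ) = x * aeval x F.divX := by
    conv_lhs => rw [e1]
    rw [map_mul, aeval_X]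
  have h5 : 0 < 1 - x := by linarith
  rw [h2, abs_mul, abs_of_pos h5, abs_mul, abs_of_pos hx0]
  have h6 : (1 - x) * |(aeval x F.divX : ℝ)| ≤ 1 := by
    calc (1 - x) * |(aeval x F.divX : ℝ)| ≤ (1 - x) * (1 - x)⁻¹ :=
          mul_le_mul_of_nonneg_left h1 h5.le
      _ = 1 := mul_inv_cancel₀ h5.ne'
  nlinarith

/-! ## UF -/

/-- UF, `1 - s x^n ≥ 1 - x²`. -/
theorem uf_a {x F sg w : ℝ} (hx0 : 0 < x) (hx4 : x ≤ 1 / 4) (hs1 : 1 ≤ sg)
    (hs2 : sg * x ≤ 1 - 3 * x) (hF1 : (1 - x) * F ≤ x) (hF2 : -x ≤ (1 - x) * F)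
    (hw : 1 - x ^ 2 ≤ w)
    (hA : x * (1 + x) * (w * (((1 - x) + sg * x * F) / x) + (1 + F)) < 1 + F) : False := by
  have h0 : x * (1 + x) * (w * (((1 - x) + sg * x * F) / x) + (1 + F)) =
      (1 + x) * (w * ((1 - x) + sg * x * F)) + x * (1 + x) * (1 + F) := by
    field_simp
  rw [h0] at hA
  -- the bracket is positive
  have hb : 0 ≤ (1 - x) + sg * x * F := by
    rcases le_total 0 F with h | h
    · have : 0 ≤ sg * x * F := mul_nonneg (by nlinarith) h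
      nlinarith
    · have h1 : (1 - 3 * x) * F ≤ sg * x * F := mul_le_mul_of_nonpos_right hs2 h
      nlinarith
  have h1 : (1 + x) * ((1 - x ^ 2) * ((1 - x) + sg * x * F)) + x * (1 + x) * (1 + F) < 1 + F := by
    refine lt_of_le_of_lt ?_ hA
    have : (1 - x ^ 2) * ((1 - x) + sg * x * F) ≤ w * ((1 - x) + sg * x * F) :=
      mul_le_mul_of_nonneg_right hw hb
    nlinarith
  rcases le_total 0 F with h | h
  · have h2 : x * F ≤ sg * x * F := by nlinarith [mul_nonneg hx0.le h]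
    have h3 : (1 + x) * ((1 - x ^ 2) * ((1 - x) + x * F)) + x * (1 + x) * (1 + F) < 1 + F := by
      refine lt_of_le_of_lt ?_ h1
      have h4 : (1 - x ^ 2) * ((1 - x) + x * F) ≤ (1 - x ^ 2) * ((1 - x) + sg * x * F) :=
        mul_le_mul_of_nonneg_left (by linarith) (by nlinarith)
      nlinarith
    -- `-x + x² - x⁴ + F (1 - 2x - 2x² + x³ + x⁴) > 0`
    have h4 : 0 < -x + x ^ 2 - x ^ 4 + F * (1 - 2 * x - 2 * x ^ 2 + x ^ 3 + x ^ 4) := by
      nlinarith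
    have h5 : 0 ≤ 1 - 2 * x - 2 * x ^ 2 + x ^ 3 + x ^ 4 := by
      have : 0 ≤ x ^ 3 + x ^ 4 := by positivity
      nlinarith
    have h6 : (1 - x) * F * (1 - 2 * x - 2 * x ^ 2 + x ^ 3 + x ^ 4) ≤
        x * (1 - 2 * x - 2 * x ^ 2 + x ^ 3 + x ^ 4) := mul_le_mul_of_nonneg_right hF1 h5
    have h7 : 0 < (1 - x) * (-x + x ^ 2 - x ^ 4 + F * (1 - 2 * x - 2 * x ^ 2 + x ^ 3 + x ^ 4)) :=
      mul_pos (by linarith) h4
    have h8 : 0 < x ^ 3 * (3 - 2 * x ^ 2) := by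
      apply mul_pos (by positivity)
      nlinarith
    nlinarith
  · have h2 : (1 - 3 * x) * F ≤ sg * x * F := mul_le_mul_of_nonpos_right hs2 h
    have h3 : (1 + x) * ((1 - x ^ 2) * ((1 - x) + (1 - 3 * x) * F)) + x * (1 + x) * (1 + F) <
        1 + F := by
      refine lt_of_le_of_lt ?_ h1
      have h4 : (1 - x ^ 2) * ((1 - x) + (1 - 3 * x) * F) ≤ (1 - x ^ 2) * ((1 - x) + sg * x * F) :=
        mul_le_mul_of_nonneg_left (by linarith) (by nlinarith)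
      nlinarith
    have h4 : 0 < -x + x ^ 2 - x ^ 4 + F * (x + 3 * x ^ 2 - 2 * x ^ 3 - 3 * x ^ 4) := by
      nlinarith
    have h5 : 0 ≤ x + 3 * x ^ 2 - 2 * x ^ 3 - 3 * x ^ 4 := by
      have : 0 ≤ x * (1 + 3 * x - 2 * x ^ 2 - 3 * x ^ 3) := by
        apply mul_nonneg hx0.le
        have : x ^ 3 ≤ (1 / 4) ^ 3 := pow_le_pow_left₀ hx0.le hx4 3
        nlinarith
      nlinarith
    have h6 : F * (x + 3 * x ^ 2 - 2 * x ^ 3 - 3 * x ^ 4) ≤ 0 :=
      mul_nonpos_of_nonpos_of_nonneg h h5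
    have : 0 ≤ x ^ 4 := by positivity
    nlinarith

/-- UF, `n = 1`, `s = 1`, the point `x`: `F(x) > 0`. -/
theorem uf_b {x F sg : ℝ} (hx0 : 0 < x) (hx4 : x ≤ 1 / 4) (hs2 : sg * x ≤ 1 - 3 * x)
    (hA : x * (1 + x) * ((1 - x) * (((1 - x) + sg * x * F) / x) + (1 + F)) < 1 + F) : 0 < F := by
  have h0 : x * (1 + x) * ((1 - x) * (((1 - x) + sg * x * F) / x) + (1 + F)) =
      (1 + x) * ((1 - x) * ((1 - x) + sg * x * F)) + x * (1 + x) * (1 + F) := by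
    field_simp
  rw [h0] at hA
  have h1 : x ^ 3 < F * ((1 - x - x ^ 2) - sg * x * (1 - x ^ 2)) := by nlinarith
  have h2 : 0 < (1 - x - x ^ 2) - sg * x * (1 - x ^ 2) := by
    have h3 : sg * x * (1 - x ^ 2) ≤ (1 - 3 * x) * (1 - x ^ 2) :=
      mul_le_mul_of_nonneg_right hs2 (by nlinarith)
    have h4 : 0 < x * (2 - 3 * x ^ 2) := mul_pos hx0 (by nlinarith)
    nlinarith
  by_contra hcon
  push Not at hcon
  have h3 : F * ((1 - x - x ^ 2) - sg * x * (1 - x ^ 2)) ≤ 0 :=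
    mul_nonpos_of_nonpos_of_nonneg hcon h2.le
  have h4 : 0 < x ^ 3 := by positivity
  linarith

/-- UF, `n = 1`, `s = 1`, the point `y`: `F(y) ≤ 0`. -/
theorem uf_c {y F sg : ℝ} (hy0 : 0 < y) (hy3 : y ≤ 1 / 3) (hs2 : sg * y ≤ 1 - 2 * y)
    (hB : 1 + F ≤ y * ((1 - y) * ((1 + sg * y * F) / y) + (1 + F))) : F ≤ 0 := by
  have h0 : y * ((1 - y) * ((1 + sg * y * F) / y) + (1 + F)) =
      (1 - y) * (1 + sg * y * F) + y * (1 + F) := by
    field_simp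
  rw [h0] at hB
  have h1 : F * ((1 - y) * (1 - sg * y)) ≤ 0 := by nlinarith
  have h2 : 0 < (1 - y) * (1 - sg * y) := mul_pos (by linarith) (by linarith)
  by_contra hcon
  push Not at hcon
  linarith [mul_pos hcon h2]

/-- UF with `g3 = 1` (`n = 1`, `s = -1`). -/
theorem uf_d {x F sg : ℝ} (hx0 : 0 < x) (hx4 : x ≤ 1 / 4) (hs1 : 1 ≤ sg)
    (hs2 : sg * x ≤ 1 - 3 * x) (hF1 : (1 - x) * F ≤ x)
    (hA : x * (1 + x) * ((1 + x) * (((1 - x) + sg * x * F) / x) + 1) < 1 + F) : False := by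
  have h0 : x * (1 + x) * ((1 + x) * (((1 - x) + sg * x * F) / x) + 1) =
      (1 + x) * ((1 + x) * ((1 - x) + sg * x * F)) + x * (1 + x) := by
    field_simp
  rw [h0] at hA
  have h1 : 2 * x - x ^ 3 < F * (1 - sg * x * (1 + x) ^ 2) := by nlinarith
  have h2 : 0 < 1 - sg * x * (1 + x) ^ 2 := by
    have h3 : sg * x * (1 + x) ^ 2 ≤ (1 - 3 * x) * (1 + x) ^ 2 :=
      mul_le_mul_of_nonneg_right hs2 (by positivity)
    have h4 : 0 < x * (1 + 5 * x + 3 * x ^ 2) := by positivity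
    nlinarith
  have h3 : 1 - sg * x * (1 + x) ^ 2 ≤ 1 - x * (1 + x) ^ 2 := by
    have h4 : x * (1 + x) ^ 2 ≤ sg * (x * (1 + x) ^ 2) :=
      le_mul_of_one_le_left (by positivity) hs1
    nlinarith
  rcases le_total F 0 with h | h
  · have h4 : F * (1 - sg * x * (1 + x) ^ 2) ≤ 0 := mul_nonpos_of_nonpos_of_nonneg h h2.le
    have h5 : 0 < x * (2 - x ^ 2) := mul_pos hx0 (by nlinarith)
    nlinarith
  · have h4 : F * (1 - sg * x * (1 + x) ^ 2) ≤ F * (1 - x * (1 + x) ^ 2) :=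
      mul_le_mul_of_nonneg_left h3 h
    have h5 : 0 ≤ 1 - x * (1 + x) ^ 2 := by linarith
    have h6 : (1 - x) * F * (1 - x * (1 + x) ^ 2) ≤ x * (1 - x * (1 + x) ^ 2) :=
      mul_le_mul_of_nonneg_right hF1 h5
    have h7 : (1 - x) * (2 * x - x ^ 3) < (1 - x) * (F * (1 - x * (1 + x) ^ 2)) :=
      mul_lt_mul_of_pos_left (by linarith) (by linarith)
    have h8 : 0 < x * (1 - x + x ^ 2 + 2 * x ^ 3) := by
      apply mul_pos hx0
      have : 0 < x ^ 3 := by positivity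
      nlinarith
    nlinarith

end Pool.Agent.B5.KO.H95
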